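import Mathlib

set_option autoImplicit false

/-!
Bootstrap percolation on finite graphs: basic definitions and general lemmas.
-/

namespace Pool.Agent.TH479.BP

open Set

/-- One round of `r`-neighbour bootstrap percolation: a vertex with at least `r` infected
neighbours becomes infected. -/
def step {V : Type*} (G : SimpleGraph V) (r : ℕ) (A : Set V) : Set V :=
  A ∪ {v | r ≤ (G.neighborSet v ∩ A).ncard}

/-- The set `A_t` of vertices infected after `t` rounds, started from `A`. -/
def stage {V : Type*} (G : SimpleGraph V) (r : ℕ) (A : Set V) : ℕ → Set V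
  | 0 => A
  | t + 1 => step G r (stage G r A t)

/-- The closure of `A`: all vertices that are eventually infected. -/
def closure {V : Type*} (G : SimpleGraph V) (r : ℕ) (A : Set V) : Set V :=
  ⋃ t, stage G r A t

/-- The percolation time of `A`: the least `t` such that `A_t` is the closure of `A`. -/
noncomputable def time {V : Type*} (G : SimpleGraph V) (r : ℕ) (A : Set V) : ℕ :=
  sInf {t | stage G r A t = closure G r A}

/-- The maximum percolation time of a percolating set. -/
noncomputable def maxTime {V : Type*} (G : SimpleGraph V) (r : ℕ) : ℕ :=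
  sSup {t | ∃ A : Set V, closure G r A = univ ∧ t = time G r A}

section general

variable {V : Type*} {G : SimpleGraph V} {r : ℕ} {A : Set V}

lemma subset_step (B : Set V) : B ⊆ step G r B := subset_union_left

lemma stage_mono_succ (t : ℕ) : stage G r A t ⊆ stage G r A (t + 1) := subset_step _

lemma stage_mono : Monotone (stage G r A) := monotone_nat_of_le_succ stage_mono_succ

lemma stage_subset_closure (t : ℕ) : stage G r A t ⊆ closure G r A :=
  subset_iUnion _ t

lemma subset_closure' : A ⊆ closure G r A := stage_subset_closure 0

variable [Finite V]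

lemma exists_stage_eq_closure : ∃ t, stage G r A t = closure G r A := by
  classical
  have h : ∀ v : V, ∃ t, v ∈ closure G r A → v ∈ stage G r A t := by
    intro v
    by_cases hv : v ∈ closure G r A
    · obtain ⟨t, ht⟩ := mem_iUnion.1 hv
      exact ⟨t, fun _ => ht⟩
    · exact ⟨0, fun h => absurd h hv⟩
  choose τ hτ using h
  obtain ⟨M, hM⟩ := (Set.finite_range τ).bddAbove
  refine ⟨M, Subset.antisymm (stage_subset_closure _) fun v hv => ?_⟩
  exact stage_mono (hM ⟨v, rfl⟩) (hτ v hv)

lemma stage_time : stage G r A (time G r A) = closure G r A :=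
  Nat.sInf_mem (s := {t | stage G r A t = closure G r A}) exists_stage_eq_closure

lemma closed_closure {v : V} (h : r ≤ (G.neighborSet v ∩ closure G r A).ncard) :
    v ∈ closure G r A := by
  obtain ⟨t, ht⟩ := exists_stage_eq_closure (G := G) (r := r) (A := A)
  rw [← ht] at h
  exact stage_subset_closure (t + 1) (Or.inr h)

/-- If `stage t` is not everything then the percolation time of a percolating set exceeds `t`. -/
lemma lt_time {t : ℕ} (hA : closure G r A = univ) (h : stage G r A t ≠ univ) :
    t < time G r A := by
  by_contra hlt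
  push Not at hlt
  apply h
  have h1 := stage_mono (G := G) (r := r) (A := A) hlt
  rw [stage_time, hA] at h1
  exact univ_subset_iff.1 h1

/-- A certificate for lower bounds on infection times. -/
lemma le_of_mem_stage (f : V → ℕ) (h0 : ∀ v ∈ A, f v = 0)
    (hc : ∀ v ∉ A, (G.neighborSet v ∩ {u | f u + 2 ≤ f v}).ncard < r) :
    ∀ (t : ℕ) (v : V), v ∈ stage G r A t → f v ≤ t := by
  intro t
  induction t with
  | zero => intro v hv; exact (h0 v hv).le
  | succ t ih =>
    intro v hv
    by_cases hA : v ∈ A
    · rw [h0 v hA]; exact Nat.zero_le _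
    rcases hv with hv | hv
    · exact (ih v hv).trans (Nat.le_succ _)
    · by_contra hlt
      push Not at hlt
      have h1 : G.neighborSet v ∩ stage G r A t ⊆ G.neighborSet v ∩ {u | f u + 2 ≤ f v} := by
        intro u hu
        refine ⟨hu.1, ?_⟩
        have := ih u hu.2
        simp only [mem_setOf_eq]
        omega
      have h2 := Set.ncard_le_ncard h1 (Set.toFinite _)
      have h3 := hc v hA
      have h4 : r ≤ (G.neighborSet v ∩ stage G r A t).ncard := hv
      omega

end general

section transfer

variable {V V' : Type*} {G : SimpleGraph V} {G' : SimpleGraph V'} (e : G ≃g G') (r : ℕ)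

lemma image_step (A : Set V) : e '' step G r A = step G' r (e '' A) := by
  ext v
  obtain ⟨u, rfl⟩ := e.surjective v
  have h1 : G'.neighborSet (e u) ∩ (e '' A) = e '' (G.neighborSet u ∩ A) := by
    ext w
    obtain ⟨x, rfl⟩ := e.surjective w
    constructor
    · rintro ⟨h, y, hy, hyx⟩
      have := e.injective hyx
      subst this
      exact ⟨y, ⟨e.map_adj_iff.1 h, hy⟩, rfl⟩
    · rintro ⟨y, ⟨hy1, hy2⟩, hyx⟩
      have := e.injective hyx
      subst this
      exact ⟨e.map_adj_iff.2 hy1, y, hy2, rfl⟩
  have h2 : (G'.neighborSet (e u) ∩ (e '' A)).ncard = (G.neighborSet u ∩ A).ncard := by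
    rw [h1, Set.ncard_image_of_injective _ e.injective]
  constructor
  · rintro ⟨x, hx, hxu⟩
    have := e.injective hxu
    subst this
    rcases hx with hx | hx
    · exact Or.inl ⟨x, hx, rfl⟩
    · right
      simp only [mem_setOf_eq] at hx ⊢
      rw [h2]; exact hx
  · rintro (⟨x, hx, hxu⟩ | hx)
    · exact ⟨x, Or.inl hx, hxu⟩
    · refine ⟨u, Or.inr ?_, rfl⟩
      simp only [mem_setOf_eq] at hx ⊢
      rw [← h2]; exact hx

lemma image_stage (A : Set V) (t : ℕ) : e '' stage G r A t = stage G' r (e '' A) t := by
  induction t with
  | zero => rfl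
  | succ t ih =>
    change e '' step G r (stage G r A t) = step G' r (stage G' r (e '' A) t)
    rw [image_step, ih]

lemma image_closure (A : Set V) : e '' closure G r A = closure G' r (e '' A) := by
  unfold closure
  rw [Set.image_iUnion]
  simp_rw [image_stage]

end transfer

end Pool.Agent.TH479.BP
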