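import Pool.Agent.TH479.BP.Perc
import Pool.Agent.TH479.BP.Upper

set_option autoImplicit false

/-!
Transfer to the hypercube, padding, and the final bounds.
-/

namespace Pool.Agent.TH479.BP

open Set

/-- The `n`-dimensional `q`-ary hypercube: the vertices are the vectors in `{0, ..., q - 1}^n`, two
of them being adjacent when they differ in exactly one coordinate. -/
def cube (n q : ℕ) : SimpleGraph (Fin n → Fin q) where
  Adj x y := ∃! i, x i ≠ y i
  symm := ⟨by
    rintro x y ⟨i, hi, hu⟩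
    exact ⟨i, fun h => hi h.symm, fun j hj => hu j (fun h => hj h.symm)⟩⟩
  loopless := ⟨by
    rintro x ⟨i, hi, -⟩
    exact hi rfl⟩

/-- there is a percolating set which is not everything at time `T` -/
def Has {V : Type*} (G : SimpleGraph V) (r T : ℕ) : Prop :=
  ∃ A : Set V, closure G r A = univ ∧ stage G r A T ≠ univ

lemma bdd_times {V : Type*} [Finite V] (G : SimpleGraph V) (r : ℕ) :
    BddAbove {t | ∃ A : Set V, closure G r A = univ ∧ t = time G r A} := by
  apply Set.Finite.bddAbove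
  refine (Set.finite_range (fun A : Set V => time G r A)).subset ?_
  rintro _ ⟨A, -, rfl⟩
  exact ⟨A, rfl⟩

lemma Has.lt_maxTime {V : Type*} [Finite V] {G : SimpleGraph V} {r T : ℕ} (h : Has G r T) :
    T < maxTime G r := by
  obtain ⟨A, h1, h2⟩ := h
  exact lt_of_lt_of_le (lt_time h1 h2) (le_csSup (bdd_times G r) ⟨A, h1, rfl⟩)

lemma maxTime_mem {V : Type*} [Finite V] (G : SimpleGraph V) (r : ℕ) :
    ∃ A : Set V, closure G r A = univ ∧ maxTime G r = time G r A := by
  have h : {t | ∃ A : Set V, closure G r A = univ ∧ t = time G r A}.Nonempty := by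
    refine ⟨_, univ, ?_, rfl⟩
    exact univ_subset_iff.1 subset_closure'
  exact Nat.sSup_mem h (bdd_times G r)

lemma Has.congr {V V' : Type*} {G : SimpleGraph V} {G' : SimpleGraph V'} (e : G ≃g G') {r T : ℕ}
    (h : Has G r T) : Has G' r T := by
  obtain ⟨A, h1, h2⟩ := h
  refine ⟨e '' A, ?_, ?_⟩
  · rw [← image_closure, h1, Set.image_univ]
    exact e.surjective.range_eq
  · rw [← image_stage]
    intro h
    apply h2
    rw [Set.eq_univ_iff_forall]
    intro v
    have : e v ∈ e '' stage G r A T := by rw [h]; trivial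
    obtain ⟨u, hu, huv⟩ := this
    rwa [← e.injective huv]

section iso

variable {a s : ℕ}

/-- coordinates as one vector -/
def e0 (v : VV a s) : Dir a s → ZMod 2 :=
  Sum.elim (Sum.elim v.1.1 (Sum.elim v.1.2.1 v.1.2.2)) v.2

lemma e0_injective : Function.Injective (e0 (a := a) (s := s)) := by
  rintro ⟨⟨y, ρ, κ⟩, q⟩ ⟨⟨y', ρ', κ'⟩, q'⟩ h
  simp only [Prod.mk.injEq]
  refine ⟨⟨?_, ?_, ?_⟩, ?_⟩
  · funext i; exact congrFun h (Sum.inl (Sum.inl i))
  · funext i; exact congrFun h (Sum.inl (Sum.inr (Sum.inl i)))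
  · funext i; exact congrFun h (Sum.inl (Sum.inr (Sum.inr i)))
  · funext i; exact congrFun h (Sum.inr i)

lemma e0_surjective : Function.Surjective (e0 (a := a) (s := s)) := by
  intro f
  refine ⟨((fun i => f (Sum.inl (Sum.inl i)), fun i => f (Sum.inl (Sum.inr (Sum.inl i))),
    fun i => f (Sum.inl (Sum.inr (Sum.inr i)))), fun i => f (Sum.inr i)), ?_⟩
  funext k
  rcases k with (i | j | j) | l <;> rfl

lemma e0_fl (k j : Dir a s) (v : VV a s) : e0 (fl k v) j = e0 v j + (if j = k then 1 else 0) := by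
  obtain ⟨⟨y, ρ, κ⟩, q⟩ := v
  rcases k with (i | i | i) | i <;> rcases j with (j | j | j) | j <;>
    simp [e0, fl, flW, Pi.single_apply]

lemma zmod2_ne {x y : ZMod 2} (h : x ≠ y) : y = x + 1 := by
  revert x y; decide

/-- the isomorphism -/
noncomputable def isoCube (n : ℕ) (σ : Dir a s ≃ Fin n) : GV a s ≃g cube n 2 where
  toEquiv := (Equiv.ofBijective e0 ⟨e0_injective, e0_surjective⟩).trans
    (Equiv.arrowCongr σ (Equiv.refl (ZMod 2)))
  map_rel_iff' := by
    intro u v
    have hv : ∀ (w : VV a s) (i : Fin n), ((Equiv.ofBijective e0 ⟨e0_injective, e0_surjective⟩).trans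
        (Equiv.arrowCongr σ (Equiv.refl (ZMod 2)))) w i = e0 w (σ.symm i) := by
      intro w i; rfl
    constructor
    · rintro ⟨i, hi, hu⟩
      refine ⟨σ.symm i, ?_⟩
      apply e0_injective
      funext j
      rw [e0_fl]
      by_cases hj : j = σ.symm i
      · rw [if_pos hj, hj]
        have h1 : e0 u (σ.symm i) ≠ e0 v (σ.symm i) := hi
        exact zmod2_ne h1
      · rw [if_neg hj, add_zero]
        by_contra hne
        apply hj
        have h1 := hu (σ j) (by
          intro h
          apply hne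
          have h2 : e0 u (σ.symm (σ j)) = e0 v (σ.symm (σ j)) := h
          rw [Equiv.symm_apply_apply] at h2
          exact h2.symm)
        rw [← h1, Equiv.symm_apply_apply]
    · rintro ⟨k, rfl⟩
      refine ⟨σ k, ?_, ?_⟩
      · intro h
        have h2 : e0 u (σ.symm (σ k)) = e0 (fl k u) (σ.symm (σ k)) := h
        rw [Equiv.symm_apply_apply, e0_fl, if_pos rfl] at h2
        revert h2
        generalize e0 u k = x
        revert x
        decide
      · intro i hi
        by_contra hne
        apply hi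
        have h2 : e0 u (σ.symm i) = e0 (fl k u) (σ.symm i) := by
          rw [e0_fl, if_neg (by intro h; exact hne (by rw [← h, Equiv.apply_symm_apply])), add_zero]
        exact h2

lemma card_dir : Fintype.card (Dir a s) = a + 2 * s + 8 := by
  simp [Fintype.card_sum]; ring

end iso

/-- existence of the columns -/
lemma exists_cols (a m : ℕ) (h : a + (m + 1) ^ 2 + (m + 1) ^ 3 ≤ 2 ^ m) :
    Nonempty (Cols a (m + 1)) := by
  classical
  let F1 : Finset (Fin (m + 1) → ZMod 2) :=
    (Finset.univ : Finset (Fin m → ZMod 2)).image (fun x => (Fin.cons 1 x : Fin (m + 1) → ZMod 2))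
  let B2 : Finset (Fin (m + 1) → ZMod 2) :=
    (Finset.univ : Finset (Fin (m + 1) × Fin (m + 1))).image (fun p => ee p.1 + ee p.2)
  let B3 : Finset (Fin (m + 1) → ZMod 2) :=
    (Finset.univ : Finset (Fin (m + 1) × Fin (m + 1) × Fin (m + 1))).image
      (fun p => ee p.1 + ee p.2.1 + ee p.2.2)
  have c1 : F1.card = 2 ^ m := by
    rw [Finset.card_image_of_injective]
    · simp [ZMod.card]
    · intro x y hxy
      exact (Fin.cons_injective2 hxy).2
  have c2 : B2.card ≤ (m + 1) ^ 2 := by
    refine Finset.card_image_le.trans ?_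
    simp [sq]
  have c3 : B3.card ≤ (m + 1) ^ 3 := by
    refine Finset.card_image_le.trans ?_
    simp only [Finset.card_univ, Fintype.card_prod, Fintype.card_fin]
    exact le_of_eq (by ring)
  have c4 : a ≤ (F1 \ (B2 ∪ B3)).card := by
    have h1 := Finset.le_card_sdiff (B2 ∪ B3) F1
    have h2 := Finset.card_union_le B2 B3
    omega
  have hemb : Nonempty (Fin a ↪ (F1 \ (B2 ∪ B3) : Finset (Fin (m + 1) → ZMod 2))) := by
    apply Function.Embedding.nonempty_of_card_le
    rw [Fintype.card_coe, Fintype.card_fin]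
    exact c4
  obtain ⟨φ⟩ := hemb
  have hφ : ∀ i, (φ i : Fin (m + 1) → ZMod 2) ∈ F1 ∧ (φ i : Fin (m + 1) → ZMod 2) ∉ B2 ∧
      (φ i : Fin (m + 1) → ZMod 2) ∉ B3 := by
    intro i
    have := (φ i).2
    rw [Finset.mem_sdiff, Finset.mem_union] at this
    tauto
  refine ⟨⟨fun i => φ i, fun i j hij => φ.injective (Subtype.ext hij), ?_, ?_, ?_, Nat.succ_pos m⟩⟩
  · intro i j l hc
    apply (hφ i).2.1
    exact Finset.mem_image.2 ⟨(j, l), Finset.mem_univ _, hc.symm⟩
  · intro i j l p hc
    apply (hφ i).2.2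
    exact Finset.mem_image.2 ⟨(j, l, p), Finset.mem_univ _, hc.symm⟩
  · intro i
    obtain ⟨x, -, hx⟩ := Finset.mem_image.1 (hφ i).1
    have : (φ i : Fin (m + 1) → ZMod 2) 0 = 1 := by rw [← hx]; simp
    exact rk_top _ this

lemma cube_three (n : ℕ) (hn : 2 ^ 15 ≤ n) : ∃ T, Has (cube n 2) 3 T ∧ 2 ^ n ≤ 4096 * n * T := by
  have hn0 : n ≠ 0 := by positivity
  set k := Nat.log 2 n with hk
  have h1 : 2 ^ k ≤ n := Nat.pow_log_le_self 2 hn0
  have h2 : n < 2 ^ (k + 1) := Nat.lt_pow_succ_log_self (by norm_num) n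
  have hk15 : 15 ≤ k := by
    rw [hk]
    exact (Nat.le_log_iff_pow_le (by norm_num) hn0).2 hn
  have h3 : (k + 3) ^ 2 + (k + 3) ^ 3 ≤ 2 ^ k := by
    clear_value k
    clear hk h1 h2
    induction k, hk15 using Nat.le_induction with
    | base => norm_num
    | succ k hk ih =>
      have e : 2 ^ (k + 1) = 2 * 2 ^ k := by ring
      rw [e]
      nlinarith
  have h4 : k + 4 ≤ 2 ^ k := by nlinarith
  -- parameters
  obtain ⟨C⟩ := exists_cols (n - 2 * (k + 3) - 8) (k + 2) (by
    have e : 2 ^ (k + 2) = 2 ^ (k + 1) + 2 ^ k + 2 ^ k := by ring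
    have e2 : k + 2 + 1 = k + 3 := rfl
    rw [e, e2]
    omega)
  have hle : 2 * (k + 3) + 8 ≤ n := by
    have : 2 * (k + 3) + 8 ≤ (k + 3) ^ 2 + (k + 3) ^ 3 := by nlinarith
    omega
  have hcard : Fintype.card (Dir (n - 2 * (k + 3) - 8) (k + 3)) = n := by
    rw [card_dir]; omega
  have hHas : Has (GV (n - 2 * (k + 3) - 8) (k + 3)) 3
      (2 ^ (n - 2 * (k + 3) - 8) * 2 ^ (k + 3 - 1)) := ⟨C.A0, C.percolates, C.slow⟩
  refine ⟨_, hHas.congr (isoCube n (Fintype.equivFinOfCardEq hcard)), ?_⟩
  have e1 : 2 ^ (n - 2 * (k + 3) - 8) * 2 ^ (k + 3 - 1) * (2 ^ k * 4096) = 2 ^ n := by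
    have : (4096 : ℕ) = 2 ^ 12 := by norm_num
    rw [this, ← pow_add, ← pow_add, ← pow_add]
    congr 1
    omega
  calc 2 ^ n = 2 ^ (n - 2 * (k + 3) - 8) * 2 ^ (k + 3 - 1) * (2 ^ k * 4096) := e1.symm
    _ ≤ 2 ^ (n - 2 * (k + 3) - 8) * 2 ^ (k + 3 - 1) * (n * 4096) :=
        Nat.mul_le_mul_left _ (Nat.mul_le_mul_right _ h1)
    _ = _ := by ring

section pad

variable {n : ℕ}

lemma cube_adj_succ (x y : Fin (n + 1) → Fin 2) : (cube (n + 1) 2).Adj x y ↔
    (x 0 ≠ y 0 ∧ Fin.tail x = Fin.tail y) ∨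
    (x 0 = y 0 ∧ (cube n 2).Adj (Fin.tail x) (Fin.tail y)) := by
  constructor
  · rintro ⟨i, hi, hu⟩
    by_cases h0 : x 0 = y 0
    · right
      refine ⟨h0, ?_⟩
      have hi0 : i ≠ 0 := by rintro rfl; exact hi h0
      obtain ⟨j, rfl⟩ := Fin.exists_succ_eq.2 hi0
      refine ⟨j, hi, ?_⟩
      intro l hl
      exact Fin.succ_injective _ (hu l.succ hl)
    · left
      refine ⟨h0, ?_⟩
      have h1 := hu 0 h0
      funext j
      by_contra hne
      have h2 := hu j.succ hne
      rw [← h1] at h2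
      exact Fin.succ_ne_zero j h2
  · rintro (⟨h0, h1⟩ | ⟨h0, j, hj, hu⟩)
    · refine ⟨0, h0, ?_⟩
      intro i hi
      by_contra hi0
      obtain ⟨j, rfl⟩ := Fin.exists_succ_eq.2 hi0
      exact hi (congrFun h1 j)
    · refine ⟨j.succ, hj, ?_⟩
      intro i hi
      have hi0 : i ≠ 0 := by rintro rfl; exact hi h0
      obtain ⟨l, rfl⟩ := Fin.exists_succ_eq.2 hi0
      rw [hu l hi]

lemma fin2_cases (x : Fin 2) : x = 0 ∨ x = 1 := by
  fin_cases x
  · exact Or.inl rfl
  · exact Or.inr rfl

lemma pad_nbr (S : Set (Fin n → Fin 2)) (x : Fin (n + 1) → Fin 2) (hx : x 0 = 0) :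
    ((cube (n + 1) 2).neighborSet x ∩ {z : Fin (n + 1) → Fin 2 | z 0 = 1 ∨ (Fin.tail z : Fin n → Fin 2) ∈ S}).ncard =
      ((cube n 2).neighborSet (Fin.tail x) ∩ S).ncard + 1 := by
  have h : (cube (n + 1) 2).neighborSet x ∩ {z : Fin (n + 1) → Fin 2 | z 0 = 1 ∨ (Fin.tail z : Fin n → Fin 2) ∈ S} =
      insert (Fin.cons 1 (Fin.tail x) : Fin (n + 1) → Fin 2)
        ((fun z => (Fin.cons 0 z : Fin (n + 1) → Fin 2)) ''
          ((cube n 2).neighborSet (Fin.tail x) ∩ S)) := by
    ext z
    constructor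
    · rintro ⟨h1, h2⟩
      have h1' : (cube (n + 1) 2).Adj x z := h1
      rw [cube_adj_succ] at h1'
      rcases h1' with ⟨h3, h4⟩ | ⟨h3, h4⟩
      · left
        have h5 : z 0 = 1 := by
          rcases fin2_cases (z 0) with h | h
          · rw [hx, h] at h3; exact absurd rfl h3
          · exact h
        rw [h4, ← h5, Fin.cons_self_tail]
      · right
        refine ⟨Fin.tail z, ⟨h4, ?_⟩, ?_⟩
        · rcases h2 with h2 | h2
          · rw [← h3, hx] at h2
            exact absurd h2 (by decide)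
          · exact h2
        · have : z 0 = 0 := by rw [← h3, hx]
          simp only
          rw [← this, Fin.cons_self_tail]
    · rintro (rfl | ⟨z, ⟨h1, h2⟩, rfl⟩)
      · refine ⟨?_, Or.inl rfl⟩
        change (cube (n + 1) 2).Adj _ _
        rw [cube_adj_succ]
        left
        simp [hx]
      · refine ⟨?_, Or.inr h2⟩
        change (cube (n + 1) 2).Adj _ _
        rw [cube_adj_succ]
        right
        exact ⟨hx, h1⟩
  rw [h, Set.ncard_insert_of_notMem, Set.ncard_image_of_injective]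
  · intro z z' hz
    exact (Fin.cons_injective2 hz).2
  · rintro ⟨z, -, hz⟩
    have := congrFun hz 0
    simp at this

lemma pad_stage (r : ℕ) (A : Set (Fin n → Fin 2)) (t : ℕ) :
    stage (cube (n + 1) 2) (r + 1)
      {x : Fin (n + 1) → Fin 2 | x 0 = 1 ∨ (Fin.tail x : Fin n → Fin 2) ∈ A} t =
      {x : Fin (n + 1) → Fin 2 | x 0 = 1 ∨ (Fin.tail x : Fin n → Fin 2) ∈
        stage (cube n 2) r A t} := by
  induction t with
  | zero => rfl
  | succ t ih =>
    change step _ _ (stage _ _ _ t) = _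
    rw [ih]
    ext x
    rcases fin2_cases (x 0) with hx | hx
    · constructor
      · rintro (h | h)
        · rcases h with h | h
          · exact Or.inl h
          · exact Or.inr (Or.inl h)
        · right
          right
          have h' : r + 1 ≤ ((cube (n + 1) 2).neighborSet x ∩
            {z : Fin (n + 1) → Fin 2 | z 0 = 1 ∨ (Fin.tail z : Fin n → Fin 2) ∈ stage (cube n 2) r A t}).ncard := h
          rw [pad_nbr _ _ hx] at h'
          exact Nat.le_of_succ_le_succ h'
      · rintro (h | h)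
        · exact Or.inl (Or.inl h)
        · rcases h with h | h
          · exact Or.inl (Or.inr h)
          · right
            change r + 1 ≤ ((cube (n + 1) 2).neighborSet x ∩
              {z : Fin (n + 1) → Fin 2 | z 0 = 1 ∨ (Fin.tail z : Fin n → Fin 2) ∈ stage (cube n 2) r A t}).ncard
            rw [pad_nbr _ _ hx]
            exact Nat.succ_le_succ h
    · constructor
      · intro _; exact Or.inl hx
      · intro _; exact Or.inl (Or.inl hx)

lemma Has.pad {r T : ℕ} (h : Has (cube n 2) r T) : Has (cube (n + 1) 2) (r + 1) T := by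
  obtain ⟨A, h1, h2⟩ := h
  refine ⟨{x : Fin (n + 1) → Fin 2 | x 0 = 1 ∨ (Fin.tail x : Fin n → Fin 2) ∈ A}, ?_, ?_⟩
  · rw [Set.eq_univ_iff_forall]
    intro x
    have hx : (Fin.tail x : Fin n → Fin 2) ∈ closure (cube n 2) r A := by rw [h1]; trivial
    obtain ⟨t, ht⟩ := Set.mem_iUnion.1 hx
    apply Set.mem_iUnion.2
    refine ⟨t, ?_⟩
    rw [pad_stage]
    exact Or.inr ht
  · rw [pad_stage]
    intro h
    apply h2
    rw [Set.eq_univ_iff_forall]
    intro z
    have : (Fin.cons 0 z : Fin (n + 1) → Fin 2) ∈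
        {x : Fin (n + 1) → Fin 2 | x 0 = 1 ∨ (Fin.tail x : Fin n → Fin 2) ∈
          stage (cube n 2) r A T} := by
      rw [h]; trivial
    rcases this with h | h
    · simp at h
    · rwa [Fin.tail_cons] at h

lemma Has.pad_many {r T : ℕ} (h : Has (cube n 2) r T) (m : ℕ) :
    Has (cube (n + m) 2) (r + m) T := by
  induction m with
  | zero => exact h
  | succ m ih => exact ih.pad

end pad

lemma cube_degree (n : ℕ) (v : Fin n → Fin 2) : ((cube n 2).neighborSet v).ncard = n := by
  have h : (cube n 2).neighborSet v = Set.range (fun i => Function.update v i (v i + 1)) := by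
    ext u
    constructor
    · rintro ⟨i, hi, hu⟩
      refine ⟨i, ?_⟩
      funext j
      by_cases hj : j = i
      · subst hj
        simp only [Function.update_self]
        have h1 : v j ≠ u j := hi
        revert h1
        generalize v j = x
        generalize u j = y
        revert x y
        decide
      · simp only [Function.update_of_ne hj]
        by_contra hne
        exact hj (hu j hne)
    · rintro ⟨i, rfl⟩
      refine ⟨i, ?_, ?_⟩
      · simp only [Function.update_self]
        generalize v i = x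
        revert x
        decide
      · intro j hj
        by_contra hne
        apply hj
        simp only [Function.update_of_ne hne]
  rw [h, ← Set.image_univ, Set.ncard_image_of_injective, Set.ncard_univ]
  · simp
  · intro i j hij
    by_contra hne
    have := congrFun hij i
    simp only [Function.update_self, Function.update_of_ne hne] at this
    revert this
    generalize v i = x
    revert x
    decide

lemma has_zero (n r : ℕ) (h : r ≤ n) : Has (cube n 2) r 0 := by
  refine ⟨{v | v ≠ 0}, ?_, ?_⟩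
  · rw [Set.eq_univ_iff_forall]
    intro v
    by_cases hv : v = 0
    · subst hv
      apply stage_subset_closure 1
      right
      change r ≤ _
      have h1 : (cube n 2).neighborSet 0 ∩ stage (cube n 2) r {v | v ≠ 0} 0 =
          (cube n 2).neighborSet 0 := by
        apply Set.inter_eq_left.2
        intro u hu
        change u ≠ 0
        rintro rfl
        exact (cube n 2).loopless.irrefl _ hu
      rw [h1, cube_degree]
      exact h
    · exact subset_closure' hv
  · intro h
    have : (0 : Fin n → Fin 2) ∈ stage (cube n 2) r {v | v ≠ 0} 0 := by rw [h]; trivial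
    exact this rfl

theorem lower_large (r n : ℕ) (hr : 3 ≤ r) (hn : 2 ^ 15 + (r - 3) ≤ n) :
    2 ^ n ≤ 2 ^ (r + 9) * n * maxTime (cube n 2) r := by
  obtain ⟨m, rfl⟩ : ∃ m, r = 3 + m := ⟨r - 3, by omega⟩
  obtain ⟨k, rfl⟩ : ∃ k, n = k + m := ⟨n - m, by omega⟩
  obtain ⟨T, h1, h2⟩ := cube_three k (by omega)
  have h3 := (h1.pad_many m).lt_maxTime
  calc 2 ^ (k + m) = 2 ^ k * 2 ^ m := by rw [pow_add]
    _ ≤ 4096 * k * T * 2 ^ m := Nat.mul_le_mul_right _ h2
    _ ≤ 4096 * (k + m) * maxTime (cube (k + m) 2) (3 + m) * 2 ^ m := by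
        apply Nat.mul_le_mul_right
        apply Nat.mul_le_mul _ h3.le
        apply Nat.mul_le_mul_left
        omega
    _ = _ := by
        have : 2 ^ (3 + m + 9) = 4096 * 2 ^ m := by
          rw [show 3 + m + 9 = 12 + m by ring, pow_add]; norm_num
        rw [this]; ring

theorem theta (r : ℕ) (hr : 3 ≤ r) : ∃ c C : ℝ, 0 < c ∧ 0 < C ∧ ∀ n : ℕ, r ≤ n →
    c * (2 ^ n / n) ≤ (maxTime (cube n 2) r : ℝ) ∧
    (maxTime (cube n 2) r : ℝ) ≤ C * (2 ^ n / n) := by
  refine ⟨1 / 2 ^ (2 ^ 15 + r), r * (r + 2), by positivity, by positivity, ?_⟩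
  intro n hn
  have hn0 : (0 : ℝ) < n := by
    have : 0 < n := by omega
    exact_mod_cast this
  constructor
  · rw [one_div_mul_eq_div, div_div, div_le_iff₀ (by positivity)]
    by_cases hbig : 2 ^ 15 + (r - 3) ≤ n
    · have h := lower_large r n hr hbig
      have h' : (2 : ℝ) ^ n ≤ 2 ^ (r + 9) * n * maxTime (cube n 2) r := by exact_mod_cast h
      refine h'.trans ?_
      have h2 : (2 : ℝ) ^ (r + 9) ≤ 2 ^ (2 ^ 15 + r) :=
        pow_le_pow_right₀ (by norm_num) (by omega)
      calc (2 : ℝ) ^ (r + 9) * n * maxTime (cube n 2) r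
          ≤ 2 ^ (2 ^ 15 + r) * n * maxTime (cube n 2) r := by gcongr
        _ = _ := by ring
    · have h1 := (has_zero n r hn).lt_maxTime
      have h1' : (1 : ℝ) ≤ maxTime (cube n 2) r := by exact_mod_cast h1
      have h2 : (2 : ℝ) ^ n ≤ 2 ^ (2 ^ 15 + r) := pow_le_pow_right₀ (by norm_num) (by omega)
      have h3 : (1 : ℝ) ≤ n := by
        have : 1 ≤ n := by omega
        exact_mod_cast this
      calc (2 : ℝ) ^ n ≤ 1 * (n * 2 ^ (2 ^ 15 + r)) := by
            rw [one_mul]
            calc (2 : ℝ) ^ n ≤ 1 * 2 ^ (2 ^ 15 + r) := by rw [one_mul]; exact h2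
              _ ≤ _ := by gcongr
        _ ≤ _ := by gcongr
  · obtain ⟨A, hA, hAt⟩ := maxTime_mem (cube n 2) r
    have h := upper (cube n 2) n r (by omega) (fun v => (cube_degree n v).ge) A hA
    rw [← hAt] at h
    have hc : Fintype.card (Fin n → Fin 2) = 2 ^ n := by simp
    rw [hc] at h
    have h' : (maxTime (cube n 2) r : ℝ) * ((n - (r - 1) : ℕ) : ℝ) ≤ 2 ^ n * (r + 2) := by
      exact_mod_cast h
    have h2 : (n : ℝ) ≤ r * ((n - (r - 1) : ℕ) : ℝ) := by
      have : n ≤ r * (n - (r - 1)) := by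
        obtain ⟨d, rfl⟩ : ∃ d, n = r + d := ⟨n - r, by omega⟩
        have e : r + d - (r - 1) = d + 1 := by omega
        rw [e]
        nlinarith
      exact_mod_cast this
    rw [← mul_div_assoc, le_div_iff₀ hn0]
    calc (maxTime (cube n 2) r : ℝ) * n ≤ maxTime (cube n 2) r * (r * ((n - (r - 1) : ℕ) : ℝ)) := by
          gcongr
      _ = r * (maxTime (cube n 2) r * ((n - (r - 1) : ℕ) : ℝ)) := by ring
      _ ≤ r * (2 ^ n * (r + 2)) := by gcongr
      _ = _ := by ring

end Pool.Agent.TH479.BP
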