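import Mathlib

set_option autoImplicit false

/-!
The reflected Gray code: a Hamiltonian path of the hypercube `Fin s → ZMod 2`.
-/

namespace Pool.Agent.TH479.BP

/-- The unit vector. -/
abbrev ee {s : ℕ} (j : Fin s) : Fin s → ZMod 2 := Pi.single j 1

lemma zmod2_cases (x : ZMod 2) : x = 0 ∨ x = 1 := by
  fin_cases x
  · exact Or.inl rfl
  · exact Or.inr rfl

lemma add_self2 {s : ℕ} (x : Fin s → ZMod 2) : x + x = 0 := by
  funext i
  exact CharTwo.add_self_eq_zero (x i)

lemma add_add2 {s : ℕ} (x y : Fin s → ZMod 2) : x + y + y = x := by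
  rw [add_assoc, add_self2, add_zero]

lemma eq_add_iff2 {s : ℕ} (x y z : Fin s → ZMod 2) : x = y + z ↔ x + z = y := by
  constructor
  · rintro rfl; exact add_add2 _ _
  · rintro rfl; exact (add_add2 _ _).symm

/-- rank in the Gray code -/
def rk : ∀ {s : ℕ}, (Fin s → ZMod 2) → ℕ
  | 0, _ => 0
  | s + 1, x => if x 0 = 0 then rk (s := s) (Fin.tail x) else 2 ^ (s + 1) - 1 - rk (s := s) (Fin.tail x)

/-- the Gray code -/
def gc : ∀ (s : ℕ), ℕ → (Fin s → ZMod 2)
  | 0, _ => default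
  | s + 1, t => if t < 2 ^ s then Fin.cons 0 (gc s t) else Fin.cons 1 (gc s (2 ^ (s + 1) - 1 - t))

lemma rk_lt : ∀ {s : ℕ} (x : Fin s → ZMod 2), rk x < 2 ^ s
  | 0, _ => by simp [rk]
  | s + 1, x => by
    have h := rk_lt (Fin.tail x)
    have h2 : 2 ^ (s + 1) = 2 ^ s + 2 ^ s := by ring
    unfold rk
    split_ifs <;> omega

lemma gc_rk : ∀ {s : ℕ} (x : Fin s → ZMod 2), gc s (rk x) = x
  | 0, _ => Subsingleton.elim _ _
  | s + 1, x => by
    have h := rk_lt (Fin.tail x)
    have h2 : 2 ^ (s + 1) = 2 ^ s + 2 ^ s := by ring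
    have ih := gc_rk (Fin.tail x)
    by_cases h0 : x 0 = 0
    · have e : rk x = rk (Fin.tail x) := by
        conv_lhs => unfold rk
        rw [if_pos h0]
      rw [e]
      unfold gc
      rw [if_pos h, ih, ← h0, Fin.cons_self_tail]
    · have h1 : x 0 = 1 := (zmod2_cases _).resolve_left h0
      have e : rk x = 2 ^ (s + 1) - 1 - rk (Fin.tail x) := by
        conv_lhs => unfold rk
        rw [if_neg h0]
      rw [e]
      unfold gc
      rw [if_neg (by omega)]
      have e2 : 2 ^ (s + 1) - 1 - (2 ^ (s + 1) - 1 - rk (Fin.tail x)) = rk (Fin.tail x) := by omega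
      rw [e2, ih, ← h1, Fin.cons_self_tail]

lemma rk_gc : ∀ {s : ℕ} (t : ℕ), t < 2 ^ s → rk (gc s t) = t
  | 0, t, h => by
    simp at h
    subst h
    rfl
  | s + 1, t, h => by
    have h2 : 2 ^ (s + 1) = 2 ^ s + 2 ^ s := by ring
    by_cases ht : t < 2 ^ s
    · have e : gc (s + 1) t = Fin.cons 0 (gc s t) := by
        conv_lhs => unfold gc
        rw [if_pos ht]
      rw [e]
      unfold rk
      rw [Fin.cons_zero, if_pos rfl, Fin.tail_cons, rk_gc t ht]
    · have e : gc (s + 1) t = Fin.cons 1 (gc s (2 ^ (s + 1) - 1 - t)) := by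
        conv_lhs => unfold gc
        rw [if_neg ht]
      rw [e]
      unfold rk
      rw [Fin.cons_zero, if_neg (by decide), Fin.tail_cons, rk_gc _ (by omega)]
      omega

lemma rk_injective {s : ℕ} : Function.Injective (rk (s := s)) :=
  Function.LeftInverse.injective gc_rk

lemma gc_zero (s : ℕ) : gc s 0 = 0 := by
  induction s with
  | zero => exact Subsingleton.elim _ _
  | succ s ih =>
    unfold gc
    rw [if_pos (by positivity), ih]
    funext i
    refine Fin.cases ?_ (fun j => ?_) i <;> simp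

lemma rk_zero (s : ℕ) : rk (0 : Fin s → ZMod 2) = 0 := by
  rw [← gc_zero, rk_gc 0 (by positivity)]

lemma cons_add_zero {s : ℕ} (a : ZMod 2) (x : Fin s → ZMod 2) :
    (Fin.cons (a + 1) x : Fin (s + 1) → ZMod 2) = (Fin.cons a x : Fin (s + 1) → ZMod 2) + ee 0 := by
  funext i
  refine Fin.cases ?_ (fun j => ?_) i
  · simp
  · simp [Pi.single_apply, (Fin.succ_ne_zero j)]

lemma cons_add_succ {s : ℕ} (a : ZMod 2) (x : Fin s → ZMod 2) (j : Fin s) :
    (Fin.cons a (x + ee j) : Fin (s + 1) → ZMod 2) =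
      (Fin.cons a x : Fin (s + 1) → ZMod 2) + ee j.succ := by
  funext i
  refine Fin.cases ?_ (fun l => ?_) i
  · simp [Pi.single_apply, (Fin.succ_ne_zero j).symm]
  · simp [Pi.single_apply]

lemma gc_adj : ∀ {s : ℕ} (t : ℕ), t + 1 < 2 ^ s → ∃ j, gc s (t + 1) = gc s t + ee j
  | 0, t, h => by simp at h
  | s + 1, t, h => by
    have h2 : 2 ^ (s + 1) = 2 ^ s + 2 ^ s := by ring
    rcases lt_trichotomy (t + 1) (2 ^ s) with h3 | h3 | h3
    · obtain ⟨j, hj⟩ := gc_adj t h3
      refine ⟨j.succ, ?_⟩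
      unfold gc
      rw [if_pos h3, if_pos (by omega), hj, cons_add_succ]
    · refine ⟨0, ?_⟩
      unfold gc
      rw [if_neg (by omega), if_pos (by omega)]
      have e : 2 ^ (s + 1) - 1 - (t + 1) = t := by omega
      rw [e]
      have := cons_add_zero 0 (gc s t)
      rw [zero_add] at this
      exact this
    · obtain ⟨j, hj⟩ := gc_adj (s := s) (2 ^ (s + 1) - 1 - (t + 1)) (by omega)
      refine ⟨j.succ, ?_⟩
      unfold gc
      rw [if_neg (by omega), if_neg (by omega)]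
      have e : 2 ^ (s + 1) - 1 - (t + 1) + 1 = 2 ^ (s + 1) - 1 - t := by omega
      rw [e] at hj
      rw [hj, cons_add_succ, add_add2]

lemma rk_top {s : ℕ} (x : Fin (s + 1) → ZMod 2) (h : x 0 = 1) : 2 ^ s ≤ rk x := by
  have h1 := rk_lt (Fin.tail x)
  have h2 : 2 ^ (s + 1) = 2 ^ s + 2 ^ s := by ring
  unfold rk
  rw [if_neg (by rw [h]; decide)]
  omega

end Pool.Agent.TH479.BP
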