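import Pool.Agent.TH479.BP.Gray

set_option autoImplicit false

/-!
The finite table: roles of the 256 layers and kernel-checked facts about them.
-/

namespace Pool.Agent.TH479.BP

/-- code of a layer -/
def enc (q : Fin 8 → ZMod 2) : ℕ :=
  (q 0).val + 2 * (q 1).val + 4 * (q 2).val + 8 * (q 3).val + 16 * (q 4).val + 32 * (q 5).val +
    64 * (q 6).val + 128 * (q 7).val

def isP0 (n : ℕ) : Bool := n == 0
def isP1 (n : ℕ) : Bool := n == 4 || n == 12
def isP3 (n : ℕ) : Bool := n == 28
def isG0 (n : ℕ) : Bool := n == 1 || n == 2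
def isG1 (n : ℕ) : Bool := n == 5 || n == 6 || n == 13 || n == 14
def isG3 (n : ℕ) : Bool := n == 29 || n == 30
def isGE (n : ℕ) : Bool := n == 61 || n == 62
def isH (n : ℕ) : Bool :=
  Nat.testBit 7301495515839068749910251979722875786304320702059763494550390008933213274112 n

/-- the initially infected layers for a class -/
def memG (n : ℕ) (c0 c1 c3 cE : Bool) : Bool :=
  (isG0 n && c0) || (isG1 n && c1) || (isG3 n && c3) || (isGE n && cE) || isH n

def memP (n : ℕ) (c0 c1 c3 : Bool) : Bool :=
  (isP0 n && c0) || (isP1 n && c1) || (isP3 n && c3)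

/-- bound for the number of horizontal neighbours -/
def hb (n : ℕ) : ℕ :=
  if isP0 n || isG0 n || isP3 n || isG3 n then 2 else if isP1 n || isG1 n || isGE n then 1 else 0

/-- round in which a layer is filled, from `H` and layer 124 -/
def ord (n : ℕ) : ℕ :=
  (633175555984089845100209241054600377336884491045488786742067941198155180882230002431744190711174475154476215688802711946567223893776521226139838640456469990601977651393929166331375190914262829358603570779113002945717780046607465640769661280670890532722333705079690482120284947259250398049448046781857116629627664820412229282028224345877913413099181455075919038283481735911148396664962009064129370930489438065485173386565830636524816372529538993009972884580713576480211786743559124174860902572777769991843653150960901751210365173056809149635896611518885387930239878798404541573166396111427419080282606044061163325961 >>> (8 * n)) % 256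

set_option maxRecDepth 100000 in
lemma enc_flip : ∀ (q : Fin 8 → ZMod 2) (l : Fin 8), enc (q + ee l) = enc q ^^^ 2 ^ l.val := by
  decide +kernel

lemma enc_lt (q : Fin 8 → ZMod 2) : enc q < 256 := by
  have h : ∀ x : ZMod 2, x.val ≤ 1 := by decide
  have h0 := h (q 0)
  have h1 := h (q 1)
  have h2 := h (q 2)
  have h3 := h (q 3)
  have h4 := h (q 4)
  have h5 := h (q 5)
  have h6 := h (q 6)
  have h7 := h (q 7)
  unfold enc
  omega

set_option maxRecDepth 100000 in
lemma tab_out : ∀ n : Fin 256, ∀ c0 c1 c3 cE : Bool, (cE = true → c1 = true) →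
    (c1 = true → c0 = true ∧ c3 = true) → memG n.val c0 c1 c3 cE = false →
    memP n.val c0 c1 c3 = false →
    hb n.val + (Finset.univ.filter (fun l : Fin 8 => (memG (n.val ^^^ 2 ^ l.val) c0 c1 c3 cE ||
      (!cE && memP (n.val ^^^ 2 ^ l.val) c0 c1 c3)) = true)).card ≤ 2 := by
  decide +kernel

set_option maxRecDepth 100000 in
lemma tab_P : ∀ n : Fin 256, ∀ c0 c1 c3 cE : Bool, (cE = true → c1 = true) →
    (c1 = true → c0 = true ∧ c3 = true) → memP n.val c0 c1 c3 = true →
    (Finset.univ.filter (fun l : Fin 8 => memG (n.val ^^^ 2 ^ l.val) c0 c1 c3 cE = true)).card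
      ≤ 2 := by
  decide +kernel

/-- adjacent `P` layers: never `P0` next to `P3` -/
lemma tab_adj : ∀ n : Fin 256, ∀ l : Fin 8, isP0 n.val = true → isP3 (n.val ^^^ 2 ^ l.val) = false := by
  decide +kernel

/-- every `P` layer has two guard layers of the same kind -/
lemma tab_guard : ∀ n : Fin 256, ∀ c0 c1 c3 : Bool, memP n.val c0 c1 c3 = true →
    ∀ cE : Bool, memG (n.val ^^^ 2 ^ 0) c0 c1 c3 cE = true ∧ memG (n.val ^^^ 2 ^ 1) c0 c1 c3 cE = true := by
  decide +kernel

lemma tab_ord : ∀ n : Fin 256, (ord n.val = 0 → isH n.val = true ∨ n.val = 124) ∧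
    (0 < ord n.val → 3 ≤ (Finset.univ.filter
      (fun l : Fin 8 => ord (n.val ^^^ 2 ^ l.val) < ord n.val)).card) := by
  decide +kernel

/-- disjointness of `P` and `G` layers -/
lemma tab_disj : ∀ n : Fin 256, ∀ c0 c1 c3 : Bool, memP n.val c0 c1 c3 = true →
    ∀ c0' c1' c3' cE' : Bool, memG n.val c0' c1' c3' cE' = false := by
  decide +kernel

lemma tab_types : ∀ n : Fin 256,
    (hb n.val = 2 ∧ (isP0 n.val || isG0 n.val) = true ∧ (isP1 n.val || isG1 n.val) = false ∧
      (isP3 n.val || isG3 n.val) = false ∧ isGE n.val = false) ∨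
    (hb n.val = 2 ∧ (isP0 n.val || isG0 n.val) = false ∧ (isP1 n.val || isG1 n.val) = false ∧
      (isP3 n.val || isG3 n.val) = true ∧ isGE n.val = false) ∨
    (hb n.val = 1 ∧ (isP0 n.val || isG0 n.val) = false ∧ (isP1 n.val || isG1 n.val) = true ∧
      (isP3 n.val || isG3 n.val) = false ∧ isGE n.val = false) ∨
    (hb n.val = 1 ∧ (isP0 n.val || isG0 n.val) = false ∧ (isP1 n.val || isG1 n.val) = false ∧
      (isP3 n.val || isG3 n.val) = false ∧ isGE n.val = true) ∨
    (hb n.val = 0 ∧ (isP0 n.val || isG0 n.val) = false ∧ (isP1 n.val || isG1 n.val) = false ∧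
      (isP3 n.val || isG3 n.val) = false ∧ isGE n.val = false) := by
  decide +kernel

set_option maxRecDepth 100000 in
lemma enc_124 : ∀ q : Fin 8 → ZMod 2, enc q = 124 → q = ee 2 + ee 3 + ee 4 + ee 5 + ee 6 := by
  decide +kernel

end Pool.Agent.TH479.BP
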