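import Pool.Agent.TH479.BP.Gray

set_option autoImplicit false

/-!
The sets `X0`, `X1`, `X3` in the cube of triples `(y, ρ, κ)`.
-/

namespace Pool.Agent.TH479.BP

open Set

/-- triples `(y, ρ, κ)` -/
abbrev Wt (a s : ℕ) := (Fin a → ZMod 2) × (Fin s → ZMod 2) × (Fin s → ZMod 2)

/-- directions -/
abbrev DW (a s : ℕ) := Fin a ⊕ Fin s ⊕ Fin s

/-- flip a coordinate -/
def flW {a s : ℕ} : DW a s → Wt a s → Wt a s
  | Sum.inl i, (y, ρ, κ) => (y + ee i, ρ, κ)
  | Sum.inr (Sum.inl j), (y, ρ, κ) => (y, ρ + ee j, κ)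
  | Sum.inr (Sum.inr j), (y, ρ, κ) => (y, ρ, κ + ee j)

lemma ee_ne_zero {s : ℕ} (j : Fin s) : ee j ≠ 0 := by
  intro h
  have := congrFun h j
  simp at this

lemma ee_injective {s : ℕ} {j l : Fin s} (h : ee j = ee l) : j = l := by
  by_contra hne
  have := congrFun h j
  simp [Pi.single_apply, hne] at this

/-- parity -/
def par {s : ℕ} (x : Fin s → ZMod 2) : ZMod 2 := ∑ i, x i

lemma par_add {s : ℕ} (x y : Fin s → ZMod 2) : par (x + y) = par x + par y := by
  simp [par, Finset.sum_add_distrib]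

lemma par_ee {s : ℕ} (j : Fin s) : par (ee j) = 1 := by
  simp [par]

lemma ee_ne_add {s : ℕ} (j l m : Fin s) : ee j ≠ ee l + ee m := by
  intro h
  have := congrArg par h
  rw [par_add, par_ee, par_ee, par_ee] at this
  revert this
  decide

lemma add_eq_zero2 {s : ℕ} {x y : Fin s → ZMod 2} (h : x + y = 0) : x = y := by
  have := (eq_add_iff2 x 0 y).2 h
  simpa using this

lemma self_ne_add_ee {s : ℕ} (x : Fin s → ZMod 2) (j : Fin s) : x + ee j ≠ x := by
  intro h
  exact ee_ne_zero j (by simpa using h)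

lemma flW_injective {a s : ℕ} (w : Wt a s) {k k' : DW a s} (h : flW k w = flW k' w) : k = k' := by
  obtain ⟨y, ρ, κ⟩ := w
  rcases k with i | j | j <;> rcases k' with i' | j' | j' <;>
    simp only [flW, Prod.mk.injEq, add_right_inj, add_eq_left, left_eq_add] at h
  · rw [ee_injective h.1]
  · exact absurd h.1 (ee_ne_zero _)
  · exact absurd h.1 (ee_ne_zero _)
  · exact absurd h.1 (ee_ne_zero _)
  · rw [ee_injective h.2.1]
  · exact absurd h.2.1 (ee_ne_zero _)
  · exact absurd h.1 (ee_ne_zero _)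
  · exact absurd h.2.1 (ee_ne_zero _)
  · rw [ee_injective h.2.2]

lemma flW_flW {a s : ℕ} (k : DW a s) (w : Wt a s) : flW k (flW k w) = w := by
  obtain ⟨y, ρ, κ⟩ := w
  rcases k with i | j | j <;> simp only [flW, add_add2]

/-- prefixes -/
def pre {s : ℕ} (α : Fin s → ZMod 2) (m : ℕ) : Fin s → ZMod 2 := fun j => if j.val < m then α j else 0

lemma pre_zero {s : ℕ} (α : Fin s → ZMod 2) : pre α 0 = 0 := by
  funext j; simp [pre]

lemma pre_full {s : ℕ} (α : Fin s → ZMod 2) : pre α s = α := by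
  funext j; simp [pre]

lemma pre_succ {s : ℕ} (α : Fin s → ZMod 2) (m : ℕ) :
    pre α (m + 1) = pre α m ∨ ∃ j, pre α (m + 1) = pre α m + ee j := by
  by_cases hm : m < s
  · rcases zmod2_cases (α ⟨m, hm⟩) with h | h
    · left
      funext j
      by_cases hj : j.val = m
      · have : j = ⟨m, hm⟩ := Fin.ext hj
        subst this
        simp [pre, h]
      · have : j.val < m + 1 ↔ j.val < m := by omega
        simp [pre, this]
    · right
      refine ⟨⟨m, hm⟩, ?_⟩
      funext j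
      by_cases hj : j.val = m
      · have : j = ⟨m, hm⟩ := Fin.ext hj
        subst this
        simp [pre, h]
      · have h1 : j.val < m + 1 ↔ j.val < m := by omega
        have h2 : j ≠ ⟨m, hm⟩ := fun h => hj (congrArg Fin.val h)
        simp [pre, h1, h2]
  · left
    funext j
    have := j.isLt
    have h1 : j.val < m + 1 := by omega
    have h2 : j.val < m := by omega
    simp [pre, h1, h2]

lemma pre_pair {s : ℕ} {α κ : Fin s → ZMod 2} {j j' : Fin s} (hne : j ≠ j') {m m' : ℕ}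
    (h : κ + ee j = pre α m) (h' : κ + ee j' = pre α m') (hm : m ≤ m') :
    m ≤ j.val ∧ j.val < m' ∧ m ≤ j'.val ∧ j'.val < m' := by
  have e : pre α m + pre α m' = ee j + ee j' := by
    rw [← h, ← h']
    have : κ + ee j + (κ + ee j') = (ee j + ee j') + κ + κ := by abel
    rw [this, add_add2]
  have key : ∀ t : Fin s, (ee j + ee j') t = 1 → m ≤ t.val ∧ t.val < m' := by
    intro t ht
    rw [← e] at ht
    simp only [Pi.add_apply, pre] at ht
    by_contra hcon
    by_cases h1 : t.val < m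
    · have h2 : t.val < m' := by omega
      rw [if_pos h1, if_pos h2, CharTwo.add_self_eq_zero] at ht
      exact absurd ht (by decide)
    · have h2 : ¬ t.val < m' := by omega
      rw [if_neg h1, if_neg h2] at ht
      exact absurd ht (by decide)
  have k1 := key j (by simp [hne])
  have k2 := key j' (by simp [hne.symm])
  exact ⟨k1.1, k1.2, k2.1, k2.2⟩

lemma pre_hits {s : ℕ} (α κ : Fin s → ZMod 2) : {j : Fin s | ∃ m, κ + ee j = pre α m}.ncard ≤ 2 := by
  by_contra hcon
  rw [not_le, Set.two_lt_ncard (Set.toFinite _)] at hcon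
  obtain ⟨j1, ⟨m1, h1⟩, j2, ⟨m2, h2⟩, j3, ⟨m3, h3⟩, h12, h13, h23⟩ := hcon
  have a12 := fun h => pre_pair h12 h1 h2 h
  have a21 := fun h => pre_pair h12.symm h2 h1 h
  have a13 := fun h => pre_pair h13 h1 h3 h
  have a31 := fun h => pre_pair h13.symm h3 h1 h
  have a23 := fun h => pre_pair h23 h2 h3 h
  have a32 := fun h => pre_pair h23.symm h3 h2 h
  have c12 := fun h => h12 (Fin.ext h)
  omega

lemma ncard_le_two_of_cover {ι : Type*} [Finite ι] (S S1 S2 : Set ι) (h : ∀ k ∈ S, k ∈ S1 ∨ k ∈ S2)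
    (h1 : S1.Subsingleton) (h2 : S2.Subsingleton) : S.ncard ≤ 2 := by
  have e1 : S ⊆ S1 ∪ S2 := fun k hk => h k hk
  have e2 := Set.ncard_le_ncard e1 (Set.toFinite _)
  have e3 := Set.ncard_union_le S1 S2
  have e4 := Set.ncard_le_one_iff_subsingleton.2 h1
  have e5 := Set.ncard_le_one_iff_subsingleton.2 h2
  omega

/-- the data: the columns `α i` -/
structure Cols (a s : ℕ) where
  α : Fin a → Fin s → ZMod 2
  inj : Function.Injective α
  ne2 : ∀ i j l, α i ≠ ee j + ee l
  ne3 : ∀ i j l m, α i ≠ ee j + ee l + ee m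
  top : ∀ i, 2 ^ (s - 1) ≤ rk (α i)
  pos : 0 < s

namespace Cols

variable {a s : ℕ} (C : Cols a s)

lemma ne0 (i : Fin a) : C.α i ≠ 0 := by
  intro h
  refine C.ne2 i ⟨0, C.pos⟩ ⟨0, C.pos⟩ ?_
  rw [h, add_self2]

lemma ne1 (i : Fin a) (j : Fin s) : C.α i ≠ ee j := by
  intro h
  refine C.ne3 i j j j ?_
  rw [h, add_self2, zero_add]

/-- syndrome -/
def h (y : Fin a → ZMod 2) : Fin s → ZMod 2 := ∑ i, y i • C.α i

lemma h_add (y : Fin a → ZMod 2) (i : Fin a) : C.h (y + ee i) = C.h y + C.α i := by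
  simp only [h, Pi.add_apply, add_smul, Finset.sum_add_distrib]
  congr 1
  rw [Finset.sum_eq_single i]
  · simp
  · intro b _ hb
    simp [hb]
  · intro h; simp at h

/-- `D = ρ + κ + h y` -/
def D (w : Wt a s) : Fin s → ZMod 2 := w.2.1 + w.2.2 + C.h w.1
/-- `E = ρ + h y` -/
def E (w : Wt a s) : Fin s → ZMod 2 := w.2.1 + C.h w.1

lemma D_eq (w : Wt a s) : C.D w = C.E w + w.2.2 := by
  simp only [D, E]; abel

lemma D_inl (w : Wt a s) (i : Fin a) : C.D (flW (Sum.inl i) w) = C.D w + C.α i := by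
  obtain ⟨y, ρ, κ⟩ := w
  simp only [D, flW, h_add]; abel
lemma D_rho (w : Wt a s) (j : Fin s) : C.D (flW (Sum.inr (Sum.inl j)) w) = C.D w + ee j := by
  obtain ⟨y, ρ, κ⟩ := w
  simp only [D, flW]; abel
lemma D_kap (w : Wt a s) (j : Fin s) : C.D (flW (Sum.inr (Sum.inr j)) w) = C.D w + ee j := by
  obtain ⟨y, ρ, κ⟩ := w
  simp only [D, flW]; abel
lemma E_inl (w : Wt a s) (i : Fin a) : C.E (flW (Sum.inl i) w) = C.E w + C.α i := by
  obtain ⟨y, ρ, κ⟩ := w
  simp only [E, flW, h_add]; abel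
lemma E_rho (w : Wt a s) (j : Fin s) : C.E (flW (Sum.inr (Sum.inl j)) w) = C.E w + ee j := by
  obtain ⟨y, ρ, κ⟩ := w
  simp only [E, flW]; abel
lemma E_kap (w : Wt a s) (j : Fin s) : C.E (flW (Sum.inr (Sum.inr j)) w) = C.E w := by
  obtain ⟨y, ρ, κ⟩ := w
  simp only [E, flW]

/-- `κ` is the column of the direction of the step before `y` -/
def predα (y : Fin a → ZMod 2) (κ : Fin s → ZMod 2) : Prop :=
  ∃ i, rk y = rk (y + ee i) + 1 ∧ κ = C.α i

open Classical in
/-- the column of the direction of the step after `y` (or 0) -/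
noncomputable def nα (y : Fin a → ZMod 2) : Fin s → ZMod 2 :=
  if h : ∃ i, rk (y + ee i) = rk y + 1 then C.α h.choose else 0

lemma nα_eq {y : Fin a → ZMod 2} {i : Fin a} (hi : rk (y + ee i) = rk y + 1) : C.nα y = C.α i := by
  have h : ∃ i, rk (y + ee i) = rk y + 1 := ⟨i, hi⟩
  unfold nα
  rw [dif_pos h]
  have h1 := h.choose_spec
  have h2 : y + ee h.choose = y + ee i := rk_injective (h1.trans hi.symm)
  rw [ee_injective (add_left_cancel h2)]

lemma predα_unique {y : Fin a → ZMod 2} {κ κ' : Fin s → ZMod 2} (h : C.predα y κ)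
    (h' : C.predα y κ') : κ = κ' := by
  obtain ⟨i, h1, rfl⟩ := h
  obtain ⟨i', h2, rfl⟩ := h'
  have h3 : y + ee i = y + ee i' := rk_injective (by omega)
  rw [ee_injective (add_left_cancel h3)]

/-- main run -/
def X0 (w : Wt a s) : Prop := C.D w = 0 ∨ ∃ j, C.D w = ee j ∧ rk (w.2.2 + ee j) = rk w.2.2 + 1

/-- junctions -/
def X1 (w : Wt a s) : Prop := (C.E w = 0 ∧ w.2.2 = 0) ∨ (C.D w = 0 ∧ C.predα w.1 w.2.2)

/-- ladders -/
def X3 (w : Wt a s) : Prop :=
  (C.E w = 0 ∧ ∃ m, w.2.2 = pre (C.nα w.1) m) ∨ (C.D w = 0 ∧ C.predα w.1 w.2.2)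

lemma X1_X0 {w : Wt a s} (hw : C.X1 w) : C.X0 w := by
  rcases hw with ⟨h1, h2⟩ | ⟨h1, -⟩
  · left; rw [D_eq, h1, h2, add_zero]
  · exact Or.inl h1

lemma X1_X3 {w : Wt a s} (hw : C.X1 w) : C.X3 w := by
  rcases hw with ⟨h1, h2⟩ | h
  · exact Or.inl ⟨h1, 0, by rw [h2, pre_zero]⟩
  · exact Or.inr h

lemma hits0 (w : Wt a s) : {k : DW a s | C.X0 (flW k w)}.ncard ≤ 2 := by
  let P1 : DW a s → Prop := fun k => match k with
    | Sum.inl i => C.D w = C.α i
    | Sum.inr (Sum.inl j) => C.D w = ee j ∨ ∃ l, C.D w = ee j + ee l ∧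
        rk (w.2.2 + ee l) = rk w.2.2 + 1
    | Sum.inr (Sum.inr _) => False
  let P2 : DW a s → Prop := fun k => match k with
    | Sum.inl i => ∃ l, C.D w = C.α i + ee l ∧ rk (w.2.2 + ee l) = rk w.2.2 + 1
    | Sum.inr (Sum.inl _) => False
    | Sum.inr (Sum.inr j) => C.D w = ee j ∨ ∃ l, C.D w = ee j + ee l ∧
        rk (w.2.2 + ee j + ee l) = rk (w.2.2 + ee j) + 1
  refine ncard_le_two_of_cover _ {k | P1 k} {k | P2 k} ?_ ?_ ?_
  · rintro (i | j | j) hk
    · rcases hk with hk | ⟨l, hk, hl⟩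
      · left
        rw [D_inl] at hk
        exact add_eq_zero2 hk
      · right
        rw [D_inl] at hk
        refine ⟨l, ?_, hl⟩
        rw [(eq_add_iff2 _ _ _).2 hk, add_comm]
    · left
      rcases hk with hk | ⟨l, hk, hl⟩
      · rw [D_rho] at hk
        exact Or.inl (add_eq_zero2 hk)
      · rw [D_rho] at hk
        refine Or.inr ⟨l, ?_, hl⟩
        rw [(eq_add_iff2 _ _ _).2 hk, add_comm]
    · right
      rcases hk with hk | ⟨l, hk, hl⟩
      · rw [D_kap] at hk
        exact Or.inl (add_eq_zero2 hk)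
      · rw [D_kap] at hk
        refine Or.inr ⟨l, ?_, hl⟩
        rw [(eq_add_iff2 _ _ _).2 hk, add_comm]
  · rintro (i | j | j) hk (i' | j' | j') hk'
    · have : C.α i = C.α i' := Eq.trans (Eq.symm hk) hk'
      rw [C.inj this]
    · exfalso
      rcases hk' with hk' | ⟨l, hk', -⟩
      · exact C.ne1 i j' (Eq.trans (Eq.symm hk) hk')
      · exact C.ne2 i j' l (Eq.trans (Eq.symm hk) hk')
    · exact hk'.elim
    · exfalso
      rcases hk with hk | ⟨l, hk, -⟩
      · exact C.ne1 i' j (Eq.trans (Eq.symm hk') hk)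
      · exact C.ne2 i' j l (Eq.trans (Eq.symm hk') hk)
    · rcases hk with hk | ⟨l, hk, hl⟩ <;> rcases hk' with hk' | ⟨l', hk', hl'⟩
      · rw [ee_injective (hk.symm.trans hk')]
      · exact absurd (hk.symm.trans hk') (ee_ne_add _ _ _)
      · exact absurd (hk'.symm.trans hk) (ee_ne_add _ _ _)
      · have h1 : w.2.2 + ee l = w.2.2 + ee l' := rk_injective (hl.trans hl'.symm)
        have h2 := ee_injective (add_left_cancel h1)
        subst h2
        rw [ee_injective (add_right_cancel (hk.symm.trans hk'))]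
    · exact hk'.elim
    · exact hk.elim
    · exact hk.elim
    · exact hk.elim
  · rintro (i | j | j) hk (i' | j' | j') hk'
    · obtain ⟨l, hk, hl⟩ := hk
      obtain ⟨l', hk', hl'⟩ := hk'
      have h1 : w.2.2 + ee l = w.2.2 + ee l' := rk_injective (hl.trans hl'.symm)
      have h2 := ee_injective (add_left_cancel h1)
      subst h2
      rw [C.inj (add_right_cancel (hk.symm.trans hk'))]
    · exact hk'.elim
    · exfalso
      obtain ⟨l, hk, hl⟩ := hk
      rcases hk' with hk' | ⟨l', hk', -⟩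
      · exact C.ne2 i j' l ((eq_add_iff2 _ _ _).2 (hk.symm.trans hk'))
      · exact C.ne3 i j' l' l ((eq_add_iff2 _ _ _).2 (hk.symm.trans hk'))
    · exact hk.elim
    · exact hk.elim
    · exact hk.elim
    · exfalso
      obtain ⟨l, hk', hl⟩ := hk'
      rcases hk with hk | ⟨l', hk, -⟩
      · exact C.ne2 i' j l ((eq_add_iff2 _ _ _).2 (hk'.symm.trans hk))
      · exact C.ne3 i' j l' l ((eq_add_iff2 _ _ _).2 (hk'.symm.trans hk))
    · exact hk'.elim
    · rcases hk with hk | ⟨l, hk, hl⟩ <;> rcases hk' with hk' | ⟨l', hk', hl'⟩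
      · rw [ee_injective (hk.symm.trans hk')]
      · exact absurd (hk.symm.trans hk') (ee_ne_add _ _ _)
      · exact absurd (hk'.symm.trans hk) (ee_ne_add _ _ _)
      · have h1 : w.2.2 + ee j + ee l = w.2.2 + ee j' + ee l' := by
          rw [add_assoc, add_assoc, ← hk, ← hk']
        rw [h1, hl'] at hl
        have h2 : w.2.2 + ee j = w.2.2 + ee j' := rk_injective (by omega)
        rw [ee_injective (add_left_cancel h2)]

lemma hits1 (w : Wt a s) : {k : DW a s | C.X1 (flW k w)}.ncard ≤ 1 := by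
  let P : DW a s → Prop := fun k => match k with
    | Sum.inl i => C.D w = C.α i
    | Sum.inr (Sum.inl j) => C.D w = ee j ∧ (w.2.2 = 0 ∨ C.predα w.1 w.2.2)
    | Sum.inr (Sum.inr j) => C.D w = ee j ∧ (w.2.2 + ee j = 0 ∨ C.predα w.1 (w.2.2 + ee j))
  rw [Set.ncard_le_one_iff_subsingleton]
  refine Set.Subsingleton.anti (t := {k | P k}) ?_ ?_
  · have aux : ∀ j j', P (Sum.inr (Sum.inl j)) → P (Sum.inr (Sum.inr j')) → False := by
      rintro j j' ⟨h1, h2⟩ ⟨h3, h4⟩
      have := ee_injective (h1.symm.trans h3)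
      subst this
      rcases h2 with h2 | h2 <;> rcases h4 with h4 | h4
      · rw [h2, zero_add] at h4
        exact ee_ne_zero _ h4
      · rw [h2, zero_add] at h4
        obtain ⟨i, -, hi⟩ := h4
        exact C.ne1 i j hi.symm
      · obtain ⟨i, -, hi⟩ := h2
        exact C.ne1 i j (hi.symm.trans (add_eq_zero2 h4))
      · have := C.predα_unique h2 h4
        exact self_ne_add_ee _ _ this.symm
    rintro (i | j | j) hk (i' | j' | j') hk'
    · have : C.α i = C.α i' := Eq.trans (Eq.symm hk) hk'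
      rw [C.inj this]
    · exact absurd (Eq.trans (Eq.symm hk) hk'.1) (C.ne1 _ _)
    · exact absurd (Eq.trans (Eq.symm hk) hk'.1) (C.ne1 _ _)
    · exact absurd (Eq.trans (Eq.symm hk') hk.1) (C.ne1 _ _)
    · rw [ee_injective (Eq.trans (Eq.symm hk.1) hk'.1)]
    · exact (aux _ _ hk hk').elim
    · exact absurd (Eq.trans (Eq.symm hk') hk.1) (C.ne1 _ _)
    · exact (aux _ _ hk' hk).elim
    · rw [ee_injective (Eq.trans (Eq.symm hk.1) hk'.1)]
  · rintro (i | j | j) hk
    · rcases hk with ⟨h1, h2⟩ | ⟨h1, -⟩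
      · rw [E_inl] at h1
        have h2' : w.2.2 = 0 := h2
        change C.D w = C.α i
        rw [D_eq, h2', add_zero]
        exact add_eq_zero2 h1
      · rw [D_inl] at h1
        exact add_eq_zero2 h1
    · rcases hk with ⟨h1, h2⟩ | ⟨h1, h2⟩
      · rw [E_rho] at h1
        have h2' : w.2.2 = 0 := h2
        refine ⟨?_, Or.inl h2'⟩
        rw [D_eq, h2', add_zero]
        exact add_eq_zero2 h1
      · rw [D_rho] at h1
        exact ⟨add_eq_zero2 h1, Or.inr h2⟩
    · rcases hk with ⟨h1, h2⟩ | ⟨h1, h2⟩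
      · rw [E_kap] at h1
        have h2' : w.2.2 + ee j = 0 := h2
        refine ⟨?_, Or.inl h2'⟩
        rw [D_eq, h1, zero_add]
        exact add_eq_zero2 h2'
      · rw [D_kap] at h1
        exact ⟨add_eq_zero2 h1, Or.inr h2⟩

lemma hits3 (w : Wt a s) (hw : ¬ C.X3 w) : {k : DW a s | C.X3 (flW k w)}.ncard ≤ 2 := by
  by_cases hE : C.E w = 0
  · have hD : C.D w = w.2.2 := by rw [D_eq, hE, zero_add]
    have hsub : {k : DW a s | C.X3 (flW k w)} ⊆
        (fun j => Sum.inr (Sum.inr j)) '' {j : Fin s | ∃ m, w.2.2 + ee j = pre (C.nα w.1) m} := by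
      rintro (i | j | j) hk
      · exfalso
        rcases hk with ⟨h1, -⟩ | ⟨h1, i', h2, h3⟩
        · rw [E_inl, hE, zero_add] at h1
          exact C.ne0 i h1
        · rw [D_inl, hD] at h1
          have h4 : w.2.2 = C.α i := add_eq_zero2 h1
          have h5 : w.2.2 = C.α i' := h3
          have h6 := C.inj (h4.symm.trans h5)
          subst h6
          have h7 : rk (w.1 + ee i) = rk (w.1 + ee i + ee i) + 1 := h2
          rw [add_add2] at h7
          apply hw
          left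
          refine ⟨hE, s, ?_⟩
          rw [C.nα_eq h7, pre_full, h4]
      · exfalso
        rcases hk with ⟨h1, -⟩ | ⟨h1, i', h2, h3⟩
        · rw [E_rho, hE, zero_add] at h1
          exact ee_ne_zero j h1
        · rw [D_rho, hD] at h1
          have h5 : w.2.2 = C.α i' := h3
          exact C.ne1 i' j (h5.symm.trans (add_eq_zero2 h1))
      · rcases hk with ⟨h1, m, h2⟩ | ⟨h1, i', h2, h3⟩
        · exact ⟨j, ⟨m, h2⟩, rfl⟩
        · exfalso
          rw [D_kap, hD] at h1
          have h5 : w.2.2 + ee j = C.α i' := h3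
          rw [h1] at h5
          exact C.ne0 i' h5.symm
    refine (Set.ncard_le_ncard hsub (Set.toFinite _)).trans ?_
    exact (Set.ncard_image_le (Set.toFinite _)).trans (pre_hits _ _)
  · let P1 : DW a s → Prop := fun k => match k with
      | Sum.inl i => C.E w = C.α i
      | Sum.inr (Sum.inl j) => C.E w = ee j
      | Sum.inr (Sum.inr _) => False
    let P2 : DW a s → Prop := fun k => match k with
      | Sum.inl i => C.D w = C.α i
      | Sum.inr (Sum.inl j) => C.D w = ee j ∧ C.predα w.1 w.2.2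
      | Sum.inr (Sum.inr j) => C.D w = ee j ∧ C.predα w.1 (w.2.2 + ee j)
    refine ncard_le_two_of_cover _ {k | P1 k} {k | P2 k} ?_ ?_ ?_
    · rintro (i | j | j) hk
      · rcases hk with ⟨h1, -⟩ | ⟨h1, -⟩
        · left
          rw [E_inl] at h1
          exact add_eq_zero2 h1
        · right
          rw [D_inl] at h1
          exact add_eq_zero2 h1
      · rcases hk with ⟨h1, -⟩ | ⟨h1, h2⟩
        · left
          rw [E_rho] at h1
          exact add_eq_zero2 h1
        · right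
          rw [D_rho] at h1
          exact ⟨add_eq_zero2 h1, h2⟩
      · rcases hk with ⟨h1, -⟩ | ⟨h1, h2⟩
        · rw [E_kap] at h1
          exact absurd h1 hE
        · right
          rw [D_kap] at h1
          exact ⟨add_eq_zero2 h1, h2⟩
    · rintro (i | j | j) hk (i' | j' | j') hk'
      · have : C.α i = C.α i' := Eq.trans (Eq.symm hk) hk'
        rw [C.inj this]
      · exact absurd (Eq.trans (Eq.symm hk) hk') (C.ne1 _ _)
      · exact hk'.elim
      · exact absurd (Eq.trans (Eq.symm hk') hk) (C.ne1 _ _)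
      · rw [ee_injective (Eq.trans (Eq.symm hk) hk')]
      · exact hk'.elim
      · exact hk.elim
      · exact hk.elim
      · exact hk.elim
    · have aux : ∀ j j', P2 (Sum.inr (Sum.inl j)) → P2 (Sum.inr (Sum.inr j')) → False := by
        rintro j j' ⟨h1, h2⟩ ⟨h3, h4⟩
        have := ee_injective (h1.symm.trans h3)
        subst this
        exact self_ne_add_ee _ _ (C.predα_unique h2 h4).symm
      rintro (i | j | j) hk (i' | j' | j') hk'
      · have : C.α i = C.α i' := Eq.trans (Eq.symm hk) hk'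
        rw [C.inj this]
      · exact absurd (Eq.trans (Eq.symm hk) hk'.1) (C.ne1 _ _)
      · exact absurd (Eq.trans (Eq.symm hk) hk'.1) (C.ne1 _ _)
      · exact absurd (Eq.trans (Eq.symm hk') hk.1) (C.ne1 _ _)
      · rw [ee_injective (Eq.trans (Eq.symm hk.1) hk'.1)]
      · exact (aux _ _ hk hk').elim
      · exact absurd (Eq.trans (Eq.symm hk') hk.1) (C.ne1 _ _)
      · exact (aux _ _ hk' hk).elim
      · rw [ee_injective (Eq.trans (Eq.symm hk.1) hk'.1)]

/-- time on the main run -/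
def f0 (w : Wt a s) : ℕ := rk w.1 * 2 ^ (s - 1) + (2 ^ (s - 1) - rk w.2.2)

open Classical in
/-- time on the ladders -/
noncomputable def f3 (w : Wt a s) : ℕ :=
  if C.E w = 0 then (rk w.1 + 1) * 2 ^ (s - 1) else rk w.1 * 2 ^ (s - 1)

lemma f0_lip {w : Wt a s} {k : DW a s} (h1 : C.X0 w) (h2 : C.X0 (flW k w)) :
    f0 (flW k w) < f0 w + 2 := by
  rcases k with i | j | j
  · exfalso
    have e := C.D_inl w i
    rcases h1 with h1 | ⟨l, h1, -⟩ <;> rcases h2 with h2 | ⟨l', h2, -⟩
    · rw [h1, h2, zero_add] at e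
      exact C.ne0 i e.symm
    · rw [h1, h2, zero_add] at e
      exact C.ne1 i l' e.symm
    · rw [h1, h2] at e
      exact C.ne1 i l (add_eq_zero2 e.symm).symm
    · rw [h1, h2, add_comm] at e
      exact C.ne2 i l' l ((eq_add_iff2 _ _ _).2 e.symm)
  · obtain ⟨y, ρ, κ⟩ := w
    simp only [f0, flW]
    omega
  · have e := C.D_kap w j
    have key : rk (w.2.2 + ee j) = rk w.2.2 + 1 ∨ rk w.2.2 = rk (w.2.2 + ee j) + 1 := by
      rcases h1 with h1 | ⟨l, h1, hl⟩ <;> rcases h2 with h2 | ⟨l', h2, hl'⟩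
      · rw [h1, h2, zero_add] at e
        exact absurd e.symm (ee_ne_zero _)
      · rw [h1, h2, zero_add] at e
        have := ee_injective e
        subst this
        right
        have h3 : rk (w.2.2 + ee l' + ee l') = rk (w.2.2 + ee l') + 1 := hl'
        rwa [add_add2] at h3
      · rw [h1, h2] at e
        have := ee_injective (add_eq_zero2 e.symm)
        subst this
        exact Or.inl hl
      · rw [h1, h2] at e
        exact absurd e (ee_ne_add _ _ _)
    obtain ⟨y, ρ, κ⟩ := w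
    simp only [f0, flW] at key ⊢
    omega

lemma f3_lip {w : Wt a s} {k : DW a s} (h1 : C.X3 w) (h2 : C.X3 (flW k w)) :
    C.f3 (flW k w) < C.f3 w + 2 := by
  rcases k with i | j | j
  · have e := C.E_inl w i
    have key : C.f3 (flW (Sum.inl i) w) = C.f3 w := by
      rcases h1 with ⟨h1, -⟩ | ⟨h1, i', h1', h1''⟩ <;>
        rcases h2 with ⟨h2, -⟩ | ⟨h2, i'', h2', h2''⟩
      · rw [h1, h2, zero_add] at e
        exact absurd e.symm (C.ne0 i)
      · rw [h1, zero_add] at e
        rw [D_inl, D_eq, h1, zero_add] at h2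
        have h3 : w.2.2 = C.α i'' := h2''
        have h4 : C.α i'' = C.α i := by rw [← h3]; exact add_eq_zero2 h2
        have h5 := C.inj h4
        subst h5
        have h6 : rk (w.1 + ee i'') = rk (w.1 + ee i'' + ee i'') + 1 := h2'
        rw [add_add2] at h6
        unfold f3
        rw [if_pos h1, if_neg (by rw [e]; exact C.ne0 _)]
        have h7 : (flW (Sum.inl i'') w).1 = w.1 + ee i'' := by
          obtain ⟨y, ρ, κ⟩ := w; rfl
        rw [h7, h6]
      · have h3 : C.E w = C.α i' := by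
          rw [D_eq] at h1
          rw [add_eq_zero2 h1, h1'']
        rw [h2, h3] at e
        have h5 := C.inj (add_eq_zero2 e.symm)
        subst h5
        unfold f3
        rw [if_pos h2, if_neg (by rw [h3]; exact C.ne0 _)]
        have h7 : (flW (Sum.inl i') w).1 = w.1 + ee i' := by
          obtain ⟨y, ρ, κ⟩ := w; rfl
        rw [h7, ← h1']
      · exfalso
        rw [D_inl, h1, zero_add] at h2
        exact C.ne0 i h2
    omega
  · exfalso
    have e := C.E_rho w j
    have e2 := C.D_rho w j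
    rcases h1 with ⟨h1, -⟩ | ⟨h1, i', h1', h1''⟩ <;>
        rcases h2 with ⟨h2, -⟩ | ⟨h2, i'', h2', h2''⟩
    · rw [h1, h2, zero_add] at e
      exact ee_ne_zero j e.symm
    · rw [D_rho, D_eq, h1, zero_add] at h2
      have h3 : w.2.2 = C.α i'' := h2''
      exact C.ne1 i'' j (h3.symm.trans (add_eq_zero2 h2))
    · have h3 : C.E w = C.α i' := by
        rw [D_eq] at h1
        rw [add_eq_zero2 h1, h1'']
      rw [h2, h3] at e
      exact C.ne1 i' j (add_eq_zero2 e.symm)
    · rw [h1, h2, zero_add] at e2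
      exact ee_ne_zero j e2.symm
  · have key : C.f3 (flW (Sum.inr (Sum.inr j)) w) = C.f3 w := by
      unfold f3
      rw [E_kap]
      obtain ⟨y, ρ, κ⟩ := w
      rfl
    omega

lemma f_agree {w : Wt a s} (h : C.X1 w) : f0 w = C.f3 w := by
  rcases h with ⟨h1, h2⟩ | ⟨h1, i, h2, h3⟩
  · unfold f0 f3
    rw [if_pos h1, h2, rk_zero, Nat.sub_zero]
    ring
  · have h4 : C.E w = C.α i := by
      rw [D_eq] at h1
      rw [add_eq_zero2 h1, h3]
    unfold f0 f3
    rw [if_neg (by rw [h4]; exact C.ne0 _), h3]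
    have := C.top i
    omega

lemma f0_le (w : Wt a s) : f0 w ≤ 2 ^ a * 2 ^ (s - 1) := by
  have h1 := rk_lt w.1
  unfold f0
  have h2 : (rk w.1 + 1) * 2 ^ (s - 1) ≤ 2 ^ a * 2 ^ (s - 1) := Nat.mul_le_mul_right _ h1
  have h3 : (rk w.1 + 1) * 2 ^ (s - 1) = rk w.1 * 2 ^ (s - 1) + 2 ^ (s - 1) := by ring
  rw [h3] at h2
  exact le_trans (Nat.add_le_add_left (Nat.sub_le _ _) _) h2

lemma f3_le (w : Wt a s) : C.f3 w ≤ 2 ^ a * 2 ^ (s - 1) := by
  have h1 := rk_lt w.1
  have h2 : (rk w.1 + 1) * 2 ^ (s - 1) ≤ 2 ^ a * 2 ^ (s - 1) := Nat.mul_le_mul_right _ h1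
  have h3 : (rk w.1 + 1) * 2 ^ (s - 1) = rk w.1 * 2 ^ (s - 1) + 2 ^ (s - 1) := by ring
  unfold f3
  split_ifs
  · exact h2
  · rw [h3] at h2
    exact le_trans (Nat.le_add_right _ _) h2

end Cols

end Pool.Agent.TH479.BP
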