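import Pool.Agent.TH479.BP.Basic
import Pool.Agent.TH479.BP.W
import Pool.Agent.TH479.BP.Quot

set_option autoImplicit false

/-!
The slow percolating set for threshold 3.
-/

namespace Pool.Agent.TH479.BP

open Set

/-- vertices -/
abbrev VV (a s : ℕ) := Wt a s × (Fin 8 → ZMod 2)

/-- directions -/
abbrev Dir (a s : ℕ) := DW a s ⊕ Fin 8

/-- flip a coordinate -/
def fl {a s : ℕ} : Dir a s → VV a s → VV a s
  | Sum.inl k, v => (flW k v.1, v.2)
  | Sum.inr l, v => (v.1, v.2 + ee l)

lemma flW_ne {a s : ℕ} (k : DW a s) (w : Wt a s) : flW k w ≠ w := by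
  obtain ⟨y, ρ, κ⟩ := w
  rcases k with i | j | j <;> simp only [flW, ne_eq, Prod.mk.injEq, not_and]
  · intro h; exact absurd h (self_ne_add_ee _ _)
  · intro _ h; exact absurd h (self_ne_add_ee _ _)
  · intro _ _ h; exact absurd h (self_ne_add_ee _ _)

lemma fl_fl {a s : ℕ} (k : Dir a s) (v : VV a s) : fl k (fl k v) = v := by
  obtain ⟨w, q⟩ := v
  rcases k with k | l
  · simp only [fl, flW_flW]
  · simp only [fl, add_add2]

lemma fl_ne {a s : ℕ} (k : Dir a s) (v : VV a s) : fl k v ≠ v := by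
  obtain ⟨w, q⟩ := v
  rcases k with k | l
  · simp only [fl, ne_eq, Prod.mk.injEq, and_true]
    exact flW_ne k w
  · simp only [fl, ne_eq, Prod.mk.injEq, true_and]
    exact self_ne_add_ee _ _

lemma fl_injective {a s : ℕ} (v : VV a s) {k k' : Dir a s} (h : fl k v = fl k' v) : k = k' := by
  obtain ⟨w, q⟩ := v
  rcases k with k | l <;> rcases k' with k' | l' <;> simp only [fl, Prod.mk.injEq] at h
  · rw [flW_injective w h.1]
  · exact absurd h.1 (flW_ne _ _)
  · exact absurd h.1.symm (flW_ne _ _)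
  · rw [ee_injective (add_left_cancel h.2)]

/-- the graph -/
def GV (a s : ℕ) : SimpleGraph (VV a s) where
  Adj u v := ∃ k, v = fl k u
  symm := ⟨by
    rintro u v ⟨k, rfl⟩
    exact ⟨k, (fl_fl k u).symm⟩⟩
  loopless := ⟨by
    rintro u ⟨k, hk⟩
    exact fl_ne k u hk.symm⟩

lemma three_le {α : Type*} [Finite α] {S : Set α} {x y z : α} (hx : x ∈ S) (hy : y ∈ S)
    (hz : z ∈ S) (hxy : x ≠ y) (hxz : x ≠ z) (hyz : y ≠ z) : 3 ≤ S.ncard := by
  have := (Set.two_lt_ncard (s := S) (Set.toFinite _)).2 ⟨x, hx, y, hy, z, hz, hxy, hxz, hyz⟩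
  omega

namespace Cols

variable {a s : ℕ} (C : Cols a s)

/-- the final junction -/
noncomputable def vend : Wt a s := (gc a (2 ^ a - 1), C.h (gc a (2 ^ a - 1)), 0)

open Classical in
noncomputable def b0 (w : Wt a s) : Bool := decide (C.X0 w)
open Classical in
noncomputable def b1 (w : Wt a s) : Bool := decide (C.X1 w)
open Classical in
noncomputable def b3 (w : Wt a s) : Bool := decide (C.X3 w)
open Classical in
noncomputable def bE (w : Wt a s) : Bool := decide (w = C.vend)

/-- initially infected (except for the start) -/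
def mG (v : VV a s) : Prop := memG (enc v.2) (C.b0 v.1) (C.b1 v.1) (C.b3 v.1) (C.bE v.1) = true
/-- on the slow path -/
def mP (v : VV a s) : Prop := memP (enc v.2) (C.b0 v.1) (C.b1 v.1) (C.b3 v.1) = true

lemma vend_X1 : C.X1 C.vend := by
  left
  simp only [E, vend, add_self2, and_self]

lemma cls (w : Wt a s) : (C.bE w = true → C.b1 w = true) ∧
    (C.b1 w = true → C.b0 w = true ∧ C.b3 w = true) := by
  constructor
  · intro h
    have h' : w = C.vend := by simpa [bE] using h
    rw [h']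
    simpa [b1] using C.vend_X1
  · intro h
    have h' : C.X1 w := by simpa [b1] using h
    exact ⟨by simpa [b0] using C.X1_X0 h', by simpa [b3] using C.X1_X3 h'⟩

/-- the starting point -/
noncomputable def v0 : VV a s := ((0, gc s (2 ^ s - 1) + C.h 0, gc s (2 ^ s - 1)), 0)

/-- the initially infected set -/
def A0 : Set (VV a s) := {v | C.mG v ∨ v = C.v0}

/-- time on the path -/
noncomputable def fp (n : ℕ) (w : Wt a s) : ℕ := if isP3 n = true then C.f3 w else f0 w

open Classical in
/-- the certificate -/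
noncomputable def ff (v : VV a s) : ℕ :=
  if C.mG v then 0 else if C.mP v then C.fp (enc v.2) v.1 else 2 ^ a * 2 ^ (s - 1) + 1

lemma not_mG_of_mP {v : VV a s} (h : C.mP v) (w : Wt a s) : ¬ C.mG (w, v.2) := by
  have := tab_disj ⟨enc v.2, enc_lt _⟩ _ _ _ h (C.b0 w) (C.b1 w) (C.b3 w) (C.bE w)
  unfold mG
  rw [this]
  simp

lemma v0_mP : C.mP C.v0 := by
  have h : C.X0 C.v0.1 := by
    left
    simp only [D, v0]
    have e : gc s (2 ^ s - 1) + C.h 0 + gc s (2 ^ s - 1) + C.h (0 : Fin a → ZMod 2) =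
      (gc s (2 ^ s - 1) + C.h 0) + (gc s (2 ^ s - 1) + C.h 0) := by abel
    rw [e, add_self2]
  have e : enc C.v0.2 = 0 := by
    simp only [v0]; decide
  have hb : C.b0 C.v0.1 = true := by simpa [b0] using h
  unfold mP
  rw [e, hb]
  rfl

lemma fp_le (n : ℕ) (w : Wt a s) : C.fp n w ≤ 2 ^ a * 2 ^ (s - 1) := by
  unfold fp
  split_ifs
  · exact C.f3_le w
  · exact f0_le w

lemma ff_A0 : ∀ v ∈ C.A0, C.ff v = 0 := by
  rintro v (hv | rfl)
  · unfold ff; rw [if_pos hv]
  · have h1 := C.v0_mP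
    have h2 : ¬ C.mG C.v0 := C.not_mG_of_mP h1 C.v0.1
    unfold ff
    rw [if_neg h2, if_pos h1]
    have e : enc C.v0.2 = 0 := by
      simp only [v0]; decide
    unfold fp
    rw [e, if_neg (by decide)]
    unfold f0
    simp only [v0]
    rw [rk_zero, rk_gc _ (by have := Nat.two_pow_pos s; omega)]
    have := C.pos
    have e2 : 2 ^ s = 2 ^ (s - 1) + 2 ^ (s - 1) := by
      rw [← two_mul, ← pow_succ']
      congr 1; omega
    have e3 := Nat.two_pow_pos (s - 1)
    omega

lemma memP_P0 {n : ℕ} {c0 c1 c3 : Bool} (h : memP n c0 c1 c3 = true) :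
    (isP0 n = true ∧ c0 = true) ∨ (isP1 n = true ∧ c1 = true) ∨ (isP3 n = true ∧ c3 = true) := by
  simp only [memP, Bool.or_eq_true, Bool.and_eq_true] at h
  tauto

lemma isP_excl (n : ℕ) : (isP3 n = true → isP0 n = false ∧ isP1 n = false) := by
  intro h
  simp only [isP3, beq_iff_eq] at h
  subst h
  decide

/-- horizontal neighbours of a path vertex on the path have nearly the same time -/
lemma fp_lip {w : Wt a s} {q : Fin 8 → ZMod 2} {k : DW a s} (h1 : C.mP (w, q))
    (h2 : C.mP (flW k w, q)) : C.fp (enc q) w < C.fp (enc q) (flW k w) + 2 := by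
  have e : flW k (flW k w) = w := flW_flW k w
  by_cases h3 : isP3 (enc q) = true
  · unfold fp
    rw [if_pos h3, if_pos h3]
    have hx := isP_excl _ h3
    have g1 : C.X3 w := by
      rcases memP_P0 h1 with ⟨h, -⟩ | ⟨h, -⟩ | ⟨-, h⟩
      · rw [hx.1] at h; exact absurd h (by decide)
      · rw [hx.2] at h; exact absurd h (by decide)
      · simpa [b3] using h
    have g2 : C.X3 (flW k w) := by
      rcases memP_P0 h2 with ⟨h, -⟩ | ⟨h, -⟩ | ⟨-, h⟩
      · rw [hx.1] at h; exact absurd h (by decide)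
      · rw [hx.2] at h; exact absurd h (by decide)
      · simpa [b3] using h
    have := C.f3_lip (w := flW k w) (k := k) g2 (by rw [e]; exact g1)
    rwa [e] at this
  · unfold fp
    rw [if_neg h3, if_neg h3]
    have g1 : C.X0 w := by
      rcases memP_P0 h1 with ⟨-, h⟩ | ⟨-, h⟩ | ⟨h, -⟩
      · simpa [b0] using h
      · exact C.X1_X0 (by simpa [b1] using h)
      · exact absurd h h3
    have g2 : C.X0 (flW k w) := by
      rcases memP_P0 h2 with ⟨-, h⟩ | ⟨-, h⟩ | ⟨h, -⟩
      · simpa [b0] using h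
      · exact C.X1_X0 (by simpa [b1] using h)
      · exact absurd h h3
    have := C.f0_lip (w := flW k w) (k := k) g2 (by rw [e]; exact g1)
    rwa [e] at this

/-- vertical neighbours on the path have the same time -/
lemma fp_vert_aux {w : Wt a s} {q : Fin 8 → ZMod 2} {l : Fin 8} (h1 : C.mP (w, q))
    (h2 : C.mP (w, q + ee l)) (h3 : isP3 (enc q) = true) (h4 : isP3 (enc (q + ee l)) = false) :
    C.f3 w = f0 w := by
  rcases memP_P0 h2 with ⟨h, -⟩ | ⟨-, h⟩ | ⟨h, -⟩
  · exfalso
    have h5 := tab_adj ⟨enc (q + ee l), enc_lt _⟩ l h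
    simp only at h5
    rw [← enc_flip, add_add2, h3] at h5
    exact absurd h5 (by decide)
  · exact (C.f_agree (by simpa [b1] using h)).symm
  · simp only at h
    rw [h4] at h
    exact absurd h (by decide)

lemma fp_vert {w : Wt a s} {q : Fin 8 → ZMod 2} {l : Fin 8} (h1 : C.mP (w, q))
    (h2 : C.mP (w, q + ee l)) : C.fp (enc (q + ee l)) w = C.fp (enc q) w := by
  unfold fp
  by_cases h3 : isP3 (enc q) = true
  · by_cases h4 : isP3 (enc (q + ee l)) = true
    · rw [if_pos h3, if_pos h4]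
    · rw [if_pos h3, if_neg h4]
      exact (C.fp_vert_aux h1 h2 h3 (by simpa using h4)).symm
  · by_cases h4 : isP3 (enc (q + ee l)) = true
    · rw [if_neg h3, if_pos h4]
      refine C.fp_vert_aux (q := q + ee l) (l := l) h2 ?_ h4 ?_
      · rw [add_add2]; exact h1
      · rw [add_add2]; simpa using h3
    · rw [if_neg h3, if_neg h4]

lemma f0_vend : f0 C.vend = 2 ^ a * 2 ^ (s - 1) := by
  unfold f0 vend
  simp only
  rw [rk_zero, rk_gc _ (by have := Nat.two_pow_pos a; omega)]
  have e : 2 ^ a = (2 ^ a - 1) + 1 := by have := Nat.two_pow_pos a; omega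
  conv_rhs => rw [e]
  ring_nf
  simp

lemma fp_vend (n : ℕ) : C.fp n C.vend = 2 ^ a * 2 ^ (s - 1) := by
  unfold fp
  rw [← C.f_agree C.vend_X1, C.f0_vend]
  simp

lemma hitsE (w : Wt a s) : {k : DW a s | flW k w = C.vend}.ncard ≤ 1 := by
  rw [Set.ncard_le_one_iff_subsingleton]
  intro k hk k' hk'
  exact flW_injective w (Eq.trans hk (Eq.symm hk'))

set_option maxRecDepth 100000 in
lemma bool_key : ∀ p0 g0 p1 g1 p3 g3 ge x0 x1 x3 xe : Bool,
    ((g0 && x0 || g1 && x1 || g3 && x3 || ge && xe || false) = true ∨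
      (p0 && x0 || p1 && x1 || p3 && x3) = true) ↔
    (((p0 || g0) = true ∧ x0 = true) ∨ ((p1 || g1) = true ∧ x1 = true) ∨
      ((p3 || g3) = true ∧ x3 = true) ∨ (ge = true ∧ xe = true)) := by
  decide +kernel

lemma horiz (w : Wt a s) (q : Fin 8 → ZMod 2) (h1 : ¬ C.mG (w, q)) (h2 : ¬ C.mP (w, q)) :
    {k : DW a s | C.mG (flW k w, q) ∨ C.mP (flW k w, q)}.ncard ≤ hb (enc q) := by
  have hH : isH (enc q) = false := by
    by_contra hcon
    apply h1
    unfold mG memG
    simp only [Bool.or_eq_true]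
    right
    simpa using hcon
  have key : ∀ w' : Wt a s, (C.mG (w', q) ∨ C.mP (w', q)) ↔
      (((isP0 (enc q) || isG0 (enc q)) = true ∧ C.X0 w') ∨
       ((isP1 (enc q) || isG1 (enc q)) = true ∧ C.X1 w') ∨
       ((isP3 (enc q) || isG3 (enc q)) = true ∧ C.X3 w') ∨
       (isGE (enc q) = true ∧ w' = C.vend)) := by
    intro w'
    have hx0 : C.X0 w' ↔ C.b0 w' = true := by simp [b0]
    have hx1 : C.X1 w' ↔ C.b1 w' = true := by simp [b1]
    have hx3 : C.X3 w' ↔ C.b3 w' = true := by simp [b3]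
    have hxE : w' = C.vend ↔ C.bE w' = true := by simp [bE]
    rw [hx0, hx1, hx3, hxE]
    unfold mG mP memG memP
    simp only [hH]
    exact bool_key _ _ _ _ _ _ _ _ _ _ _
  have hw : ¬ (C.mG (w, q) ∨ C.mP (w, q)) := by tauto
  rw [key] at hw
  have hset : {k : DW a s | C.mG (flW k w, q) ∨ C.mP (flW k w, q)} =
      {k : DW a s | (((isP0 (enc q) || isG0 (enc q)) = true ∧ C.X0 (flW k w)) ∨
       ((isP1 (enc q) || isG1 (enc q)) = true ∧ C.X1 (flW k w)) ∨
       ((isP3 (enc q) || isG3 (enc q)) = true ∧ C.X3 (flW k w)) ∨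
       (isGE (enc q) = true ∧ flW k w = C.vend))} := by
    ext k
    exact key _
  rw [hset]
  rcases tab_types ⟨enc q, enc_lt q⟩ with h | h | h | h | h <;> simp only at h <;>
    obtain ⟨e0, e1, e2, e3, e4⟩ := h <;> rw [e0] <;>
    simp only [e1, e2, e3, e4, Bool.false_eq_true, false_and, true_and, or_false, false_or] at hw ⊢
  · exact C.hits0 w
  · exact C.hits3 w hw
  · exact C.hits1 w
  · exact C.hitsE w
  · simp

lemma ncard_dir {S : Set (Dir a s)} : S.ncard = {k : DW a s | Sum.inl k ∈ S}.ncard +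
    {l : Fin 8 | Sum.inr l ∈ S}.ncard := by
  have h : S = (Sum.inl '' {k : DW a s | Sum.inl k ∈ S}) ∪
      (Sum.inr '' {l : Fin 8 | Sum.inr l ∈ S}) := by
    ext k
    rcases k with k | l <;> simp
  conv_lhs => rw [h]
  rw [Set.ncard_union_eq _ (Set.toFinite _) (Set.toFinite _),
    Set.ncard_image_of_injective _ Sum.inl_injective,
    Set.ncard_image_of_injective _ Sum.inr_injective]
  rw [Set.disjoint_left]
  rintro _ ⟨x, -, rfl⟩ ⟨y, -, hy⟩
  exact absurd hy (by simp)

lemma nbr_inter (v : VV a s) (S : Set (VV a s)) :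
    ((GV a s).neighborSet v ∩ S).ncard = {k : Dir a s | fl k v ∈ S}.ncard := by
  have h : (GV a s).neighborSet v ∩ S = (fun k => fl k v) '' {k : Dir a s | fl k v ∈ S} := by
    ext u
    constructor
    · rintro ⟨⟨k, rfl⟩, hu⟩
      exact ⟨k, hu, rfl⟩
    · rintro ⟨k, hk, rfl⟩
      exact ⟨⟨k, rfl⟩, hk⟩
  rw [h]
  exact Set.ncard_image_of_injective _ (fun k k' hk => fl_injective v hk)

lemma cert : ∀ v ∉ C.A0, ((GV a s).neighborSet v ∩ {u | C.ff u + 2 ≤ C.ff v}).ncard < 3 := by
  rintro ⟨w, q⟩ hv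
  have hvG : ¬ C.mG (w, q) := fun h => hv (Or.inl h)
  rw [nbr_inter, ncard_dir]
  by_cases hP : C.mP (w, q)
  · have hfv : C.ff (w, q) = C.fp (enc q) w := by
      unfold ff; rw [if_neg hvG, if_pos hP]
    have h1 : {k : DW a s | Sum.inl k ∈ {k : Dir a s | fl k (w, q) ∈
        {u | C.ff u + 2 ≤ C.ff (w, q)}}} = ∅ := by
      rw [Set.eq_empty_iff_forall_notMem]
      intro k hk
      have hk' : C.ff (flW k w, q) + 2 ≤ C.ff (w, q) := hk
      rw [hfv] at hk'
      have g1 : ¬ C.mG (flW k w, q) := C.not_mG_of_mP hP _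
      by_cases g2 : C.mP (flW k w, q)
      · have e : C.ff (flW k w, q) = C.fp (enc q) (flW k w) := by
          unfold ff; rw [if_neg g1, if_pos g2]
        rw [e] at hk'
        have := C.fp_lip hP g2
        omega
      · have e : C.ff (flW k w, q) = 2 ^ a * 2 ^ (s - 1) + 1 := by
          unfold ff; rw [if_neg g1, if_neg g2]
        rw [e] at hk'
        have := C.fp_le (enc q) w
        omega
    rw [h1, Set.ncard_empty, zero_add]
    have h2 : {l : Fin 8 | Sum.inr l ∈ {k : Dir a s | fl k (w, q) ∈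
        {u | C.ff u + 2 ≤ C.ff (w, q)}}} ⊆
        ((Finset.univ.filter (fun l : Fin 8 => memG (enc q ^^^ 2 ^ l.val) (C.b0 w) (C.b1 w)
          (C.b3 w) (C.bE w) = true) : Finset (Fin 8)) : Set (Fin 8)) := by
      intro l hl
      have hl' : C.ff (w, q + ee l) + 2 ≤ C.ff (w, q) := hl
      rw [hfv] at hl'
      simp only [Finset.coe_filter, Finset.mem_univ, true_and]
      by_contra hcon
      have g1 : ¬ C.mG (w, q + ee l) := by
        unfold mG
        simp only
        rw [enc_flip]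
        exact hcon
      by_cases g2 : C.mP (w, q + ee l)
      · have e : C.ff (w, q + ee l) = C.fp (enc (q + ee l)) w := by
          unfold ff; rw [if_neg g1, if_pos g2]
        rw [e, C.fp_vert hP g2] at hl'
        omega
      · have e : C.ff (w, q + ee l) = 2 ^ a * 2 ^ (s - 1) + 1 := by
          unfold ff; rw [if_neg g1, if_neg g2]
        rw [e] at hl'
        have := C.fp_le (enc q) w
        omega
    have h3 := Set.ncard_le_ncard h2 (Set.toFinite _)
    rw [Set.ncard_coe_finset] at h3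
    have h4 := tab_P ⟨enc q, enc_lt q⟩ (C.b0 w) (C.b1 w) (C.b3 w) (C.bE w) (C.cls w).1 (C.cls w).2 hP
    simp only at h4
    omega
  · have hfv : C.ff (w, q) = 2 ^ a * 2 ^ (s - 1) + 1 := by
      unfold ff; rw [if_neg hvG, if_neg hP]
    have h1 : {k : DW a s | Sum.inl k ∈ {k : Dir a s | fl k (w, q) ∈
        {u | C.ff u + 2 ≤ C.ff (w, q)}}} ⊆ {k : DW a s | C.mG (flW k w, q) ∨ C.mP (flW k w, q)} := by
      intro k hk
      have hk' : C.ff (flW k w, q) + 2 ≤ C.ff (w, q) := hk
      rw [hfv] at hk'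
      by_contra hcon
      have hcon' : ¬ C.mG (flW k w, q) ∧ ¬ C.mP (flW k w, q) := by
        constructor
        · intro h; exact hcon (Or.inl h)
        · intro h; exact hcon (Or.inr h)
      have e : C.ff (flW k w, q) = 2 ^ a * 2 ^ (s - 1) + 1 := by
        unfold ff; rw [if_neg hcon'.1, if_neg hcon'.2]
      rw [e] at hk'
      omega
    have h2 := (Set.ncard_le_ncard h1 (Set.toFinite _)).trans (C.horiz w q hvG hP)
    have h3 : {l : Fin 8 | Sum.inr l ∈ {k : Dir a s | fl k (w, q) ∈
        {u | C.ff u + 2 ≤ C.ff (w, q)}}} ⊆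
        ((Finset.univ.filter (fun l : Fin 8 => (memG (enc q ^^^ 2 ^ l.val) (C.b0 w) (C.b1 w)
          (C.b3 w) (C.bE w) || (!(C.bE w) && memP (enc q ^^^ 2 ^ l.val) (C.b0 w) (C.b1 w)
          (C.b3 w))) = true) : Finset (Fin 8)) : Set (Fin 8)) := by
      intro l hl
      have hl' : C.ff (w, q + ee l) + 2 ≤ C.ff (w, q) := hl
      rw [hfv] at hl'
      simp only [Finset.coe_filter, Finset.mem_univ, true_and, Bool.or_eq_true, Bool.and_eq_true]
      by_contra hcon
      have g1 : ¬ C.mG (w, q + ee l) := by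
        intro h
        apply hcon
        left
        unfold mG at h
        simp only at h
        rwa [enc_flip] at h
      by_cases g2 : C.mP (w, q + ee l)
      · have g3 : w = C.vend := by
          by_contra hne
          apply hcon
          right
          refine ⟨by simp [bE, hne], ?_⟩
          unfold mP at g2
          simp only at g2
          rwa [enc_flip] at g2
        have e : C.ff (w, q + ee l) = C.fp (enc (q + ee l)) w := by
          unfold ff; rw [if_neg g1, if_pos g2]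
        rw [e, g3, C.fp_vend] at hl'
        omega
      · have e : C.ff (w, q + ee l) = 2 ^ a * 2 ^ (s - 1) + 1 := by
          unfold ff; rw [if_neg g1, if_neg g2]
        rw [e] at hl'
        omega
    have h4 := Set.ncard_le_ncard h3 (Set.toFinite _)
    rw [Set.ncard_coe_finset] at h4
    have h5 := tab_out ⟨enc q, enc_lt q⟩ (C.b0 w) (C.b1 w) (C.b3 w) (C.bE w) (C.cls w).1 (C.cls w).2
      (by simpa [mG] using hvG) (by simpa [mP] using hP)
    simp only at h5
    omega

end Cols

end Pool.Agent.TH479.BP
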