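import Pool.Agent.TH479.BP.Main

set_option autoImplicit false

/-!
The slow set percolates.
-/

namespace Pool.Agent.TH479.BP

open Set

lemma flip_induct {s : ℕ} (P : (Fin s → ZMod 2) → Prop) (x0 : Fin s → ZMod 2) (h0 : P x0)
    (hs : ∀ x j, P x → P (x + ee j)) (x : Fin s → ZMod 2) : P x := by
  classical
  have key : ∀ S : Finset (Fin s), P (x0 + ∑ j ∈ S, ee j) := by
    intro S
    induction S using Finset.induction_on with
    | empty => simpa using h0
    | insert j S hj ih =>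
      rw [Finset.sum_insert hj]
      have e : x0 + (ee j + ∑ j ∈ S, ee j) = (x0 + ∑ j ∈ S, ee j) + ee j := by abel
      rw [e]
      exact hs _ _ ih
  have h := key (Finset.univ.filter (fun j => (x + x0) j = 1))
  have e : x0 + ∑ j ∈ Finset.univ.filter (fun j => (x + x0) j = 1), ee j = x := by
    have e2 : ∑ j ∈ Finset.univ.filter (fun j => (x + x0) j = 1), ee j = x + x0 := by
      funext t
      rw [Finset.sum_apply, Finset.sum_filter]
      rw [Finset.sum_eq_single t]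
      · rcases zmod2_cases ((x + x0) t) with h | h
        · rw [h]; simp
        · rw [h]; simp
      · intro b _ hb
        split_ifs
        · simp [hb.symm]
        · rfl
      · intro h; simp at h
    rw [e2]
    have : x0 + (x + x0) = x + x0 + x0 := by abel
    rw [this, add_add2]
  rwa [e] at h

lemma flW_induct {a s : ℕ} (P : Wt a s → Prop) (w0 : Wt a s) (h0 : P w0)
    (hs : ∀ w k, P w → P (flW k w)) (w : Wt a s) : P w := by
  obtain ⟨y, ρ, κ⟩ := w
  obtain ⟨y0, ρ0, κ0⟩ := w0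
  have h1 : P (y, ρ0, κ0) := flip_induct (fun y => P (y, ρ0, κ0)) y0 h0
    (fun x j hx => hs _ (Sum.inl j) hx) y
  have h2 : P (y, ρ, κ0) := flip_induct (fun ρ => P (y, ρ, κ0)) ρ0 h1
    (fun x j hx => hs _ (Sum.inr (Sum.inl j)) hx) ρ
  exact flip_induct (fun κ => P (y, ρ, κ)) κ0 h2
    (fun x j hx => hs _ (Sum.inr (Sum.inr j)) hx) κ

namespace Cols

variable {a s : ℕ} (C : Cols a s)

/-- the closure -/
def Cl : Set (VV a s) := closure (GV a s) 3 C.A0

lemma Cl_of_three {v u1 u2 u3 : VV a s} (h1 : (GV a s).Adj v u1) (h2 : (GV a s).Adj v u2)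
    (h3 : (GV a s).Adj v u3) (g1 : u1 ∈ C.Cl) (g2 : u2 ∈ C.Cl) (g3 : u3 ∈ C.Cl) (n12 : u1 ≠ u2)
    (n13 : u1 ≠ u3) (n23 : u2 ≠ u3) : v ∈ C.Cl :=
  closed_closure (three_le (S := (GV a s).neighborSet v ∩ C.Cl) ⟨h1, g1⟩ ⟨h2, g2⟩ ⟨h3, g3⟩
    n12 n13 n23)

lemma A0_Cl {v : VV a s} (h : v ∈ C.A0) : v ∈ C.Cl := subset_closure' h

lemma mG_Cl {v : VV a s} (h : C.mG v) : v ∈ C.Cl := C.A0_Cl (Or.inl h)

/-- infection moves along the path -/
lemma pstep {u : VV a s} {k : Dir a s} (hu : u ∈ C.Cl) (hPu : C.mP u) (hPv : C.mP (fl k u)) :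
    fl k u ∈ C.Cl := by
  have hg := fun cE => tab_guard ⟨enc (fl k u).2, enc_lt _⟩ _ _ _ hPv cE
  have g0 : C.mG (fl (Sum.inr 0) (fl k u)) := by
    unfold mG
    simp only [fl]
    rw [enc_flip]
    exact (hg _).1
  have g1 : C.mG (fl (Sum.inr 1) (fl k u)) := by
    unfold mG
    simp only [fl]
    rw [enc_flip]
    exact (hg _).2
  have hn : ∀ v : VV a s, C.mG v → u ≠ v := by
    rintro v hv rfl
    exact C.not_mG_of_mP hPu u.1 hv
  refine C.Cl_of_three (u1 := u) (u2 := fl (Sum.inr 0) (fl k u)) (u3 := fl (Sum.inr 1) (fl k u))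
    ⟨k, (fl_fl k u).symm⟩ ⟨_, rfl⟩ ⟨_, rfl⟩ hu (C.mG_Cl g0) (C.mG_Cl g1) (hn _ g0) (hn _ g1) ?_
  intro h
  have := fl_injective _ h
  simp at this

/-- layers -/
def q1 : Fin 8 → ZMod 2 := ee 2
def q2 : Fin 8 → ZMod 2 := ee 2 + ee 3
def q3 : Fin 8 → ZMod 2 := ee 2 + ee 3 + ee 4
def q4 : Fin 8 → ZMod 2 := ee 2 + ee 3 + ee 4 + ee 5
def q5 : Fin 8 → ZMod 2 := ee 2 + ee 3 + ee 4 + ee 5 + ee 6

lemma mP_q0 {w : Wt a s} (h : C.X0 w) : C.mP (w, 0) := by
  have e : enc 0 = 0 := by decide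
  have hb : C.b0 w = true := by simpa [b0] using h
  unfold mP
  simp only [e, hb]
  rfl

lemma mP_q1 {w : Wt a s} (h : C.X1 w) : C.mP (w, q1) := by
  have e : enc q1 = 4 := by decide
  have hb : C.b1 w = true := by simpa [b1] using h
  unfold mP
  simp only [e, hb]
  unfold memP
  simp [isP0, isP1, isP3]

lemma mP_q2 {w : Wt a s} (h : C.X1 w) : C.mP (w, q2) := by
  have e : enc q2 = 12 := by decide
  have hb : C.b1 w = true := by simpa [b1] using h
  unfold mP
  simp only [e, hb]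
  unfold memP
  simp [isP0, isP1, isP3]

lemma mP_q3 {w : Wt a s} (h : C.X3 w) : C.mP (w, q3) := by
  have e : enc q3 = 28 := by decide
  have hb : C.b3 w = true := by simpa [b3] using h
  unfold mP
  simp only [e, hb]
  unfold memP
  simp [isP0, isP1, isP3]

/-- main vertex of the fibre `y` -/
def mv (y : Fin a → ZMod 2) (κ : Fin s → ZMod 2) : Wt a s := (y, C.h y + κ, κ)

lemma D_mv (y : Fin a → ZMod 2) (κ : Fin s → ZMod 2) : C.D (C.mv y κ) = 0 := by
  simp only [D, mv]
  have : C.h y + κ + κ + C.h y = C.h y + κ + κ + C.h y := rfl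
  rw [add_add2, add_self2]

lemma run_step (y : Fin a → ZMod 2) (t : ℕ) (ht : t + 1 < 2 ^ s) :
    ((C.mv y (gc s t), 0) ∈ C.Cl ↔ (C.mv y (gc s (t + 1)), (0 : Fin 8 → ZMod 2)) ∈ C.Cl) := by
  obtain ⟨j, hj⟩ := gc_adj t ht
  -- intermediate vertex
  have hX : C.X0 (flW (Sum.inr (Sum.inl j)) (C.mv y (gc s t))) := by
    right
    refine ⟨j, ?_, ?_⟩
    · rw [D_rho, D_mv, zero_add]
    · have e : (flW (Sum.inr (Sum.inl j)) (C.mv y (gc s t))).2.2 = gc s t := rfl
      rw [e, ← hj, rk_gc _ ht, rk_gc _ (by omega)]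
  have e2 : flW (Sum.inr (Sum.inr j)) (flW (Sum.inr (Sum.inl j)) (C.mv y (gc s t))) =
      C.mv y (gc s (t + 1)) := by
    simp only [flW, mv, Prod.mk.injEq, true_and]
    rw [hj]
    exact ⟨by abel, rfl⟩
  have m1 : C.mP (C.mv y (gc s t), 0) := C.mP_q0 (Or.inl (C.D_mv _ _))
  have m2 : C.mP (flW (Sum.inr (Sum.inl j)) (C.mv y (gc s t)), 0) := C.mP_q0 hX
  have m3 : C.mP (C.mv y (gc s (t + 1)), 0) := C.mP_q0 (Or.inl (C.D_mv _ _))
  constructor
  · intro h
    have h1 := C.pstep (k := Sum.inl (Sum.inr (Sum.inl j))) h m1 m2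
    have h2 := C.pstep (k := Sum.inl (Sum.inr (Sum.inr j))) h1 m2
      (by simp only [fl]; rw [e2]; exact m3)
    simp only [fl] at h2
    rwa [e2] at h2
  · intro h
    have e3 : flW (Sum.inr (Sum.inr j)) (C.mv y (gc s (t + 1))) =
        flW (Sum.inr (Sum.inl j)) (C.mv y (gc s t)) := by
      rw [← e2, flW_flW]
    have h1 := C.pstep (k := Sum.inl (Sum.inr (Sum.inr j))) h m3
      (by simp only [fl]; rw [e3]; exact m2)
    simp only [fl] at h1
    rw [e3] at h1
    have h2 := C.pstep (k := Sum.inl (Sum.inr (Sum.inl j))) h1 m2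
      (by simp only [fl]; rw [flW_flW]; exact m1)
    simp only [fl] at h2
    rwa [flW_flW] at h2

lemma run_all (y : Fin a → ZMod 2) (κ κ' : Fin s → ZMod 2) (h : (C.mv y κ, 0) ∈ C.Cl) :
    (C.mv y κ', (0 : Fin 8 → ZMod 2)) ∈ C.Cl := by
  have key : ∀ t, t < 2 ^ s → ((C.mv y (gc s 0), 0) ∈ C.Cl ↔
      (C.mv y (gc s t), (0 : Fin 8 → ZMod 2)) ∈ C.Cl) := by
    intro t
    induction t with
    | zero => intro _; rfl
    | succ t ih =>
      intro ht
      rw [ih (by omega)]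
      exact C.run_step y t ht
  have h1 := (key (rk κ) (rk_lt κ)).2 (by rw [gc_rk]; exact h)
  have h2 := (key (rk κ') (rk_lt κ')).1 h1
  rwa [gc_rk] at h2

lemma up (w : Wt a s) (hw : C.X1 w) (h : (w, (0 : Fin 8 → ZMod 2)) ∈ C.Cl) :
    (w, q3) ∈ C.Cl := by
  have m0 := C.mP_q0 (C.X1_X0 hw)
  have m1 := C.mP_q1 hw
  have m2 := C.mP_q2 hw
  have m3 := C.mP_q3 (C.X1_X3 hw)
  have e1 : (0 : Fin 8 → ZMod 2) + ee 2 = q1 := by simp [q1]
  have h1 := C.pstep (k := Sum.inr 2) h m0 (by simp only [fl, e1]; exact m1)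
  simp only [fl, e1] at h1
  have h2 := C.pstep (k := Sum.inr 3) h1 m1 m2
  have h3 := C.pstep (k := Sum.inr 4) h2 m2 m3
  exact h3

lemma down (w : Wt a s) (hw : C.X1 w) (h : (w, q3) ∈ C.Cl) :
    (w, (0 : Fin 8 → ZMod 2)) ∈ C.Cl := by
  have m0 := C.mP_q0 (C.X1_X0 hw)
  have m1 := C.mP_q1 hw
  have m2 := C.mP_q2 hw
  have m3 := C.mP_q3 (C.X1_X3 hw)
  have e1 : q1 + ee 2 = 0 := add_self2 _
  have e2 : q2 + ee 3 = q1 := add_add2 _ _
  have e3 : q3 + ee 4 = q2 := add_add2 _ _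
  have h1 := C.pstep (k := Sum.inr 4) h m3 (by simp only [fl, e3]; exact m2)
  simp only [fl, e3] at h1
  have h2 := C.pstep (k := Sum.inr 3) h1 m2 (by simp only [fl, e2]; exact m1)
  simp only [fl, e2] at h2
  have h3 := C.pstep (k := Sum.inr 2) h2 m1 (by simp only [fl, e1]; exact m0)
  simp only [fl, e1] at h3
  exact h3

lemma zout_X1 (y : Fin a → ZMod 2) : C.X1 (C.mv y 0) := by
  left
  simp only [E, mv, add_zero, add_self2, and_self]

lemma next_fibre (y : Fin a → ZMod 2) (i : Fin a) (hi : rk (y + ee i) = rk y + 1)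
    (h : (C.mv y 0, (0 : Fin 8 → ZMod 2)) ∈ C.Cl) :
    (C.mv (y + ee i) (C.α i), (0 : Fin 8 → ZMod 2)) ∈ C.Cl := by
  have h1 := C.up _ (C.zout_X1 y) h
  have hX : ∀ m, C.X3 ((y, C.h y, pre (C.nα y) m) : Wt a s) := by
    intro m
    left
    refine ⟨?_, m, rfl⟩
    simp only [E, add_self2]
  have hlad : ∀ m, (((y, C.h y, pre (C.nα y) m) : Wt a s), q3) ∈ C.Cl := by
    intro m
    induction m with
    | zero =>
      rw [pre_zero]
      have e : C.mv y 0 = (y, C.h y, 0) := by simp only [mv, add_zero]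
      rw [← e]; exact h1
    | succ m ih =>
      rcases pre_succ (C.nα y) m with e | ⟨j, e⟩
      · rw [e]; exact ih
      · have h2 := C.pstep (k := Sum.inl (Sum.inr (Sum.inr j))) ih (C.mP_q3 (hX m))
          (by
            have := C.mP_q3 (hX (m + 1))
            rw [e] at this
            exact this)
        rw [e]
        exact h2
  have h2 := hlad s
  rw [pre_full] at h2
  have h3 : C.X1 ((y + ee i, C.h y, C.nα y) : Wt a s) := by
    right
    constructor
    · simp only [D]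
      rw [h_add, C.nα_eq hi]
      have : C.h y + C.α i + (C.h y + C.α i) = (C.h y + C.α i) + (C.h y + C.α i) := rfl
      rw [this, add_self2]
    · refine ⟨i, ?_, C.nα_eq hi⟩
      simp only
      rw [add_add2, hi]
  have h4 := C.pstep (k := Sum.inl (Sum.inl i)) h2
    (by
      have := C.mP_q3 (hX s)
      rwa [pre_full] at this)
    (C.mP_q3 (C.X1_X3 h3))
  have h5 := C.down _ h3 h4
  have e : C.mv (y + ee i) (C.α i) = (y + ee i, C.h y, C.nα y) := by
    simp only [mv]
    rw [h_add, add_add2, C.nα_eq hi]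
  rw [e]
  exact h5

lemma all_fibres (t : ℕ) (ht : t < 2 ^ a) :
    (C.mv (gc a t) 0, (0 : Fin 8 → ZMod 2)) ∈ C.Cl := by
  induction t with
  | zero =>
    refine C.run_all _ (gc s (2 ^ s - 1)) 0 ?_
    apply C.A0_Cl
    right
    simp only [v0, mv, gc_zero]
    rw [add_comm]
  | succ t ih =>
    obtain ⟨i, hi⟩ := gc_adj t ht
    have h := C.next_fibre (gc a t) i (by rw [← hi, rk_gc _ ht, rk_gc _ (by omega)]) (ih (by omega))
    rw [← hi] at h
    exact C.run_all _ _ 0 h

lemma vend_eq : C.vend = C.mv (gc a (2 ^ a - 1)) 0 := by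
  simp only [vend, mv, add_zero]

lemma isH_mG {w : Wt a s} {q : Fin 8 → ZMod 2} (h : isH (enc q) = true) : C.mG (w, q) := by
  unfold mG memG
  simp only [h, Bool.or_true]

lemma trigger : ∀ w : Wt a s, (w, q5) ∈ C.Cl := by
  have hend : (C.vend, q3) ∈ C.Cl := by
    apply C.up _ C.vend_X1
    rw [vend_eq]
    exact C.all_fibres _ (by have := Nat.two_pow_pos a; omega)
  have h4 : (C.vend, q4) ∈ C.Cl := by
    have hbE : C.bE C.vend = true := by simp [bE]
    have g0 : C.mG (C.vend, q4 + ee 0) := by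
      have e : enc (q4 + ee 0) = 61 := by decide
      unfold mG memG
      simp only [e, hbE]
      simp [isGE]
    have g1 : C.mG (C.vend, q4 + ee 1) := by
      have e : enc (q4 + ee 1) = 62 := by decide
      unfold mG memG
      simp only [e, hbE]
      simp [isGE]
    have e3 : q4 + ee 5 = q3 := add_add2 _ _
    refine C.Cl_of_three (u1 := (C.vend, q4 + ee 5)) (u2 := (C.vend, q4 + ee 0))
      (u3 := (C.vend, q4 + ee 1)) ⟨Sum.inr 5, rfl⟩ ⟨Sum.inr 0, rfl⟩ ⟨Sum.inr 1, rfl⟩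
      (by rw [e3]; exact hend) (C.mG_Cl g0) (C.mG_Cl g1) ?_ ?_ ?_
    · intro h
      have := ee_injective (add_left_cancel (Prod.mk.inj h).2)
      exact absurd this (by decide)
    · intro h
      have := ee_injective (add_left_cancel (Prod.mk.inj h).2)
      exact absurd this (by decide)
    · intro h
      have := ee_injective (add_left_cancel (Prod.mk.inj h).2)
      exact absurd this (by decide)
  have gH4 : ∀ w : Wt a s, C.mG (w, q5 + ee 4) := fun w => C.isH_mG (by decide +kernel)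
  have gH7 : ∀ w : Wt a s, C.mG (w, q5 + ee 7) := fun w => C.isH_mG (by decide +kernel)
  have h5 : (C.vend, q5) ∈ C.Cl := by
    have e3 : q5 + ee 6 = q4 := add_add2 _ _
    refine C.Cl_of_three (u1 := (C.vend, q5 + ee 6)) (u2 := (C.vend, q5 + ee 4))
      (u3 := (C.vend, q5 + ee 7)) ⟨Sum.inr 6, rfl⟩ ⟨Sum.inr 4, rfl⟩ ⟨Sum.inr 7, rfl⟩
      (by rw [e3]; exact h4) (C.mG_Cl (gH4 _)) (C.mG_Cl (gH7 _)) ?_ ?_ ?_
    · intro h
      have := ee_injective (add_left_cancel (Prod.mk.inj h).2)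
      exact absurd this (by decide)
    · intro h
      have := ee_injective (add_left_cancel (Prod.mk.inj h).2)
      exact absurd this (by decide)
    · intro h
      have := ee_injective (add_left_cancel (Prod.mk.inj h).2)
      exact absurd this (by decide)
  refine flW_induct (fun w => (w, q5) ∈ C.Cl) C.vend h5 ?_
  intro w k hw
  refine C.Cl_of_three (u1 := (w, q5)) (u2 := (flW k w, q5 + ee 4))
      (u3 := (flW k w, q5 + ee 7)) ⟨Sum.inl k, ?_⟩ ⟨Sum.inr 4, rfl⟩ ⟨Sum.inr 7, rfl⟩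
      hw (C.mG_Cl (gH4 _)) (C.mG_Cl (gH7 _)) ?_ ?_ ?_
  · simp only [fl, flW_flW]
  · intro h
    exact flW_ne k w (Prod.mk.inj h).1.symm
  · intro h
    exact flW_ne k w (Prod.mk.inj h).1.symm
  · intro h
    have := ee_injective (add_left_cancel (Prod.mk.inj h).2)
    exact absurd this (by decide)

lemma all_layers : ∀ (m : ℕ) (q : Fin 8 → ZMod 2), ord (enc q) = m → ∀ w : Wt a s, (w, q) ∈ C.Cl := by
  intro m
  induction m using Nat.strong_induction_on with
  | _ m ih =>
    intro q hq w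
    have ht := tab_ord ⟨enc q, enc_lt q⟩
    simp only at ht
    rcases Nat.eq_zero_or_pos (ord (enc q)) with h0 | h0
    · rcases ht.1 h0 with h | h
      · exact C.mG_Cl (C.isH_mG h)
      · have := enc_124 q h
        rw [this]
        exact C.trigger w
    · have h1 := ht.2 h0
      have h2 : (fun l : Fin 8 => ((w, q + ee l) : VV a s)) ''
          ((Finset.univ.filter (fun l : Fin 8 => ord (enc q ^^^ 2 ^ l.val) < ord (enc q)) :
            Finset (Fin 8)) : Set (Fin 8)) ⊆ (GV a s).neighborSet (w, q) ∩ C.Cl := by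
        rintro _ ⟨l, hl, rfl⟩
        simp only [Finset.coe_filter, Finset.mem_univ, true_and] at hl
        refine ⟨⟨Sum.inr l, rfl⟩, ?_⟩
        refine ih (ord (enc (q + ee l))) ?_ _ rfl w
        rw [← hq, enc_flip]
        exact hl
      have h3 := Set.ncard_le_ncard h2 (Set.toFinite _)
      rw [Set.ncard_image_of_injective _ (fun l l' h => ee_injective
        (add_left_cancel (Prod.mk.inj h).2)), Set.ncard_coe_finset] at h3
      exact closed_closure (h1.trans h3)

theorem percolates : closure (GV a s) 3 C.A0 = Set.univ := by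
  rw [Set.eq_univ_iff_forall]
  rintro ⟨w, q⟩
  exact C.all_layers _ q rfl w

theorem slow : stage (GV a s) 3 C.A0 (2 ^ a * 2 ^ (s - 1)) ≠ Set.univ := by
  intro h
  have h1 : (C.vend, q4) ∈ stage (GV a s) 3 C.A0 (2 ^ a * 2 ^ (s - 1)) := by rw [h]; trivial
  have h2 := le_of_mem_stage (G := GV a s) (r := 3) (A := C.A0) C.ff C.ff_A0 C.cert _ _ h1
  have e : enc q4 = 60 := by decide
  have g1 : ¬ C.mG (C.vend, q4) := by
    unfold mG memG
    simp only [e]
    have : isH 60 = false := by decide +kernel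
    rw [this]
    simp [isG0, isG1, isG3, isGE]
  have g2 : ¬ C.mP (C.vend, q4) := by
    unfold mP memP
    simp only [e]
    simp [isP0, isP1, isP3]
  unfold ff at h2
  rw [if_neg g1, if_neg g2] at h2
  omega

end Cols

end Pool.Agent.TH479.BP
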